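import Pool.Agent.H57.SL.Def

/-!
# [H1 SL CJR] Representatives of the classes of conjugate pairs (80-110 lines)

Model: `H57/LI/Rep.lean` (`cj_symm`, `cj_uniq`, `cj_card`, `cj_rep`). `Cj x y`: some `e : x.c.F ≃ₐ[K] y.c.F` has `y.χ (gm e I) = x.χ I` for all `I` (`H57/SL/Def`).

`cjr_symm`: use `e.symm` and `I = gm e.symm I'` (`gm_trans`, `gm_refl` in `H1/LS4/Gal`).

`cjr_card`: for `y` with `Cj x y` choose `e_y`; the map `y ↦ (y.c.F.val).comp e_y : x.c.F →ₐ[K] QBar` is injective: let `y`, `y'` have the same embedding; then `y.c.F = y'.c.F` (the range), destructure both (`c`, `χ`, .. and `c = ⟨F, deg, non⟩`), `subst`, then `e_y = e_y'`, so the characters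
agree on all `gm e I`, i.e. on all ideals (`I = gm e (gm e.symm I)`), and `RC` is determined by its function `χ` (`cases`). There are 3 embeddings `x.c.F →ₐ[K] QBar` (`AlgHom.card K x.c.F QBar`, `x.c.deg`).

`cjr`: let `T'` be a maximal subset of `T` in which different pairs are not conjugate (induction over `T` as in `cj_rep`: or `Finset.exists_maximal`); every `y ∈ T` is conjugate or equal to an element of `T'`, so
`T.card ≤ ∑_{x ∈ T'} 3` (`Finset.card_le_card` into a `biUnion`, `Finset.card_biUnion_le_card_mul`; `Cj x x` by the identity).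
-/

set_option autoImplicit false

open scoped NumberField Pointwise Classical
open IsDedekindDomain H63.MA NumberField H36.QA H57.LI H57.SL H1.LS4 H67.SX H38.ML

noncomputable section

namespace H1.SL

variable {K : IntermediateField ℚ QBar} [NumberField K] {S : Finset (Pl K)}

theorem cjr_symm {x y : AQ K S} (h : Cj x y) : Cj y x := by
  obtain ⟨e, he⟩ := h
  refine ⟨e.symm, fun I => ?_⟩
  have h1 := he (gm e.symm I)
  rw [gm_trans, AlgEquiv.symm_trans_self, gm_refl] at h1
  exact h1.symm

private theorem cjr_eq {x : AQ K S} {y y' : AQ K S} (e : x.c.F ≃ₐ[K] y.c.F)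
    (e' : x.c.F ≃ₐ[K] y'.c.F) (he : ∀ I : Ideal (𝓞 x.c.F), y.χ.χ (gm e I) = x.χ.χ I)
    (he' : ∀ I : Ideal (𝓞 x.c.F), y'.χ.χ (gm e' I) = x.χ.χ I)
    (h : ∀ z : x.c.F, ((e z : y.c.F) : QBar) = ((e' z : y'.c.F) : QBar)) : y = y' := by
  have hF : y.c.F = y'.c.F := by
    ext z
    constructor
    · intro hz
      have h1 := h (e.symm ⟨z, hz⟩)
      rw [AlgEquiv.apply_symm_apply] at h1
      have h2 : z = ((e' (e.symm ⟨z, hz⟩) : y'.c.F) : QBar) := h1
      rw [h2]
      exact SetLike.coe_mem _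
    · intro hz
      have h1 := h (e'.symm ⟨z, hz⟩)
      rw [AlgEquiv.apply_symm_apply] at h1
      have h2 : z = ((e (e'.symm ⟨z, hz⟩) : y.c.F) : QBar) := h1.symm
      rw [h2]
      exact SetLike.coe_mem _
  obtain ⟨c, χ, quad, triv, non⟩ := y
  obtain ⟨c', χ', quad', triv', non'⟩ := y'
  dsimp only at hF
  have hc : c = c' := by
    cases c
    cases c'
    dsimp only at hF
    subst hF
    rfl
  subst hc
  have h1 : e = e' := by
    ext z
    exact h z
  subst h1
  have h3 : χ.χ = χ'.χ := by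
    ext I
    have h4 := he (gm e.symm I)
    have h5 := he' (gm e.symm I)
    rw [gm_trans, AlgEquiv.symm_trans_self, gm_refl] at h4 h5
    rw [← h5] at h4
    exact h4
  have h7 : χ = χ' := by
    cases χ
    cases χ'
    dsimp only at h3
    subst h3
    rfl
  subst h7
  rfl

theorem cjr_card (x : AQ K S) (T : Finset (AQ K S)) (hT : ∀ y ∈ T, Cj x y) : T.card ≤ 3 := by
  have : IsAlgClosed QBar := IsAlgClosure.isAlgClosed K
  have hcard : Fintype.card (x.c.F →ₐ[K] QBar) = 3 := by
    rw [AlgHom.card K x.c.F QBar, x.c.deg]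
  rw [← hcard]
  let f : T → (x.c.F →ₐ[K] QBar) := fun y =>
    (y.1.c.F.val).comp ((hT y.1 y.2).choose : x.c.F →ₐ[K] y.1.c.F)
  have hf : Function.Injective f := by
    intro y y' hyy
    apply Subtype.ext
    refine cjr_eq (hT y.1 y.2).choose (hT y'.1 y'.2).choose (hT y.1 y.2).choose_spec
      (hT y'.1 y'.2).choose_spec fun z => ?_
    exact DFunLike.congr_fun hyy z
  rw [← Fintype.card_coe]
  exact Fintype.card_le_of_injective f hf

theorem cjr (T : Finset (AQ K S)) : ∃ T' : Finset (AQ K S), T' ⊆ T ∧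
    (∀ x ∈ T', ∀ y ∈ T', x ≠ y → ¬ Cj x y) ∧ T.card ≤ 3 * T'.card := by
  have hrefl : ∀ x : AQ K S, Cj x x := fun x => ⟨AlgEquiv.refl, fun I => by rw [gm_refl]⟩
  have key : ∃ T' : Finset (AQ K S), T' ⊆ T ∧ (∀ x ∈ T', ∀ y ∈ T', x ≠ y → ¬ Cj x y) ∧
      ∀ y ∈ T, ∃ x ∈ T', Cj x y := by
    induction T using Finset.induction_on with
    | empty => exact ⟨∅, by simp, by simp, by simp⟩
    | insert a T0 ha ih =>
      obtain ⟨T', hS1, hS2, hS3⟩ := ih
      by_cases h : ∃ x ∈ T', Cj x a
      · obtain ⟨x, hx, hxa⟩ := h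
        refine ⟨T', hS1.trans (Finset.subset_insert _ _), hS2, fun y hy => ?_⟩
        rcases Finset.mem_insert.1 hy with rfl | hy
        · exact ⟨x, hx, hxa⟩
        · exact hS3 y hy
      · push Not at h
        refine ⟨insert a T', Finset.insert_subset_insert _ hS1, ?_, ?_⟩
        · intro x hx y hy hxy
          rcases Finset.mem_insert.1 hx with hx1 | hx1
          · rcases Finset.mem_insert.1 hy with hy1 | hy1
            · exact absurd (hx1.trans hy1.symm) hxy
            · rw [hx1]
              exact fun hc => h y hy1 (cjr_symm hc)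
          · rcases Finset.mem_insert.1 hy with hy1 | hy1
            · rw [hy1]
              exact h x hx1
            · exact hS2 x hx1 y hy1 hxy
        · intro y hy
          rcases Finset.mem_insert.1 hy with rfl | hy
          · exact ⟨y, Finset.mem_insert_self _ _, hrefl y⟩
          · obtain ⟨x, hx, hxy⟩ := hS3 y hy
            exact ⟨x, Finset.mem_insert_of_mem hx, hxy⟩
  obtain ⟨T', hS1, hS2, hS3⟩ := key
  refine ⟨T', hS1, hS2, ?_⟩
  have h1 : T ⊆ T'.biUnion fun x => T.filter fun y => Cj x y := by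
    intro y hy
    obtain ⟨x, hx, hxy⟩ := hS3 y hy
    exact Finset.mem_biUnion.2 ⟨x, hx, Finset.mem_filter.2 ⟨hy, hxy⟩⟩
  refine (Finset.card_le_card h1).trans ?_
  refine Finset.card_biUnion_le.trans ?_
  rw [mul_comm, ← smul_eq_mul]
  refine Finset.sum_le_card_nsmul _ _ _ fun x _ => ?_
  exact cjr_card x _ fun y hy => (Finset.mem_filter.1 hy).2

end H1.SL
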