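import Pool.Agent.H1.SL.Df
import Pool.Agent.H57.SL.Diu
import Pool.Agent.H63.MC.CLkC

/-!
# [H1 SL LOC] The local identities in a compositum (120-160 lines)

`d1 K f l`: the sum of `f w` over the primes `w` of degree one over `l` (`H57/SL/Def`). `IT Ω E l`: the inertia groups over `l` act trivially on the embeddings of `E`; then it is so for `F`, `F'` (`it_down`). Let
`Q : DP K Ω` (`exists_DP` in `H63/MC/CLkC` for `loc9`, `loc6`), `φ = fr Q l`. By `dic_sum` (`H57/SL/Diu`) `d1 K f l = ∑ᶠ ι ∈ fx E φ, f (pe E Q l ι).asIdeal` (and for `F`, `F'`).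

`loc_nm`: let `w` be a prime of `E` over `l` with `nm w = nm l`, `P = w ∩ 𝓞 F`. Then `relNorm (𝓞 F) w = P`: `relNorm w ≤ P` (`Ideal.relNorm_le_comap`), so `P ∣ relNorm w`; `absNorm (relNorm w) = absNorm w = nm w = nm l`
(`Ideal.absNorm_relNorm`), and `absNorm P` is a multiple (a power) of `nm l` (`P` lies over `l`: `nm_over`), `P ≠ ⊤`; `absNorm P ∣ absNorm (relNorm w) = nm l`, so both norms are `nm l`, and `A ∣ B`, `absNorm A = absNorm B ≠ 0` gives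
`A = B` (see the private `eq_of_dvd` in `H1/LS4/Gal.lean`). In the statement `P` is any prime of `F` with `P.asIdeal = w ∩ 𝓞 F`.

`loc`: `d1 K ψ l = ∑ᶠ j ∈ fx E φ, ψ (pe E Q l j)`; `pe E Q l j` has `nm = nm l` (`dic_bij` maps into the primes of degree one) and the prime below it in `F` is `pe F Q l (rs F j)` (`pe_rs`, `rfl`), so
`ψ (pe E Q l j) = χ (pe F Q l (rs F j)) * χ' (pe F' Q l (rs F' j))` by `hψ` and `loc_nm`. Then `Cm.bijf` (`finsum_mem_eq_of_bijOn`).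

`loc9`: `T = univ`: the set in `loc` is `fx F φ ×ˢ fx F' φ`, and the double sum is the product (`finsum_mem` over finite sets: the embeddings are finitely many; pass to `Finset.sum_mul_sum`, `Finset.sum_product`).

`loc6`: the product is the sum over all fixed pairs `(ι, ι')`; the pairs outside `T6 e` are the `(ι, ι')` with `ι' ∘ e = ι`, i.e. `ι' = ι ∘ e⁻¹`, `ι ∈ fx F φ` (then `ι'` is fixed as well); their contribution is
`∑_{ι ∈ fx F φ} χ (pe F Q l ι) χ' (pe F' Q l (ι ∘ e⁻¹))`, and `(pe F' Q l (ι ∘ e⁻¹)).asIdeal = gm e (pe F Q l ι).asIdeal` (`mem_pe`, `gm_mem`: every element of `𝓞 F'` is `e x`). Use `dic_sum` for `F` backwards.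
-/

set_option autoImplicit false

open scoped NumberField Pointwise Classical
open IsDedekindDomain H63.MA NumberField H57.LI H57.SL H1.LS4

noncomputable section

namespace H1.SL

private theorem eq_of_dvd {F : Type} [Field F] [NumberField F] {I I' : Ideal (𝓞 F)} (h : I ∣ I')
    (h1 : Ideal.absNorm I = Ideal.absNorm I') (h0 : Ideal.absNorm I ≠ 0) : I = I' := by
  obtain ⟨C, rfl⟩ := h
  rw [map_mul] at h1
  have h2 : Ideal.absNorm C = 1 := by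
    have h3 : Ideal.absNorm I * 1 = Ideal.absNorm I * Ideal.absNorm C := by rw [mul_one]; exact h1
    exact (Nat.eq_of_mul_eq_mul_left (Nat.pos_of_ne_zero h0) h3).symm
  rw [Ideal.absNorm_eq_one_iff.1 h2, ← Ideal.one_eq_top, mul_one]

theorem loc_nm {K : Type} [Field K] [NumberField K] (F : Type) {E : Type} [Field F]
    [NumberField F] [Field E] [NumberField E] [Algebra K F] [Algebra K E] [Algebra F E]
    [IsScalarTower K F E] (l : Pl K) (w : Pl E) (P : Pl F) (hw : Over w l) (hn : nm w = nm l)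
    (hP : P.asIdeal = w.asIdeal.comap (algebraMap (𝓞 F) (𝓞 E))) :
    Ideal.relNorm (𝓞 F) w.asIdeal = P.asIdeal := by
  have hPl : Over P l := by
    unfold Over
    rw [hP, Ideal.comap_comap, ← (show w.asIdeal.comap (algebraMap (𝓞 K) (𝓞 E)) = l.asIdeal from hw)]
    congr 1
    ext x
    exact (IsScalarTower.algebraMap_apply K F E (x : K)).symm
  have h1 : P.asIdeal ∣ Ideal.relNorm (𝓞 F) w.asIdeal := by
    rw [Ideal.dvd_iff_le, hP]
    exact Ideal.relNorm_le_comap (𝓞 F) w.asIdeal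
  have h2 : Ideal.absNorm (Ideal.relNorm (𝓞 F) w.asIdeal) = nm l := by
    rw [Ideal.absNorm_relNorm]
    exact hn
  obtain ⟨f, hf, hnm⟩ := nm_over hPl
  have hl := diu_one l
  have h3 : nm P ∣ nm l := by
    rw [← h2]
    exact Ideal.absNorm_dvd_absNorm_of_le (Ideal.dvd_iff_le.1 h1)
  have h4 : nm P = nm l := by
    apply Nat.dvd_antisymm h3
    rw [hnm]
    exact dvd_pow_self _ (by omega)
  refine (eq_of_dvd h1 ?_ ?_).symm
  · rw [h2]
    exact h4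
  · have h5 : Ideal.absNorm P.asIdeal = nm l := h4
    rw [h5]
    omega

variable {K Ω F F' E : Type} [Field K] [NumberField K] [Field Ω] [Algebra K Ω]
    [IsAlgClosure K Ω] [Field F] [NumberField F] [Field F'] [NumberField F'] [Algebra K F]
    [Algebra K F'] [Field E] [NumberField E] [Algebra K E] [Algebra F E] [Algebra F' E]
    [IsScalarTower K F E] [IsScalarTower K F' E]

theorem loc (Q : DP K Ω) {T : Set ((F →ₐ[K] Ω) × (F' →ₐ[K] Ω))} (h : Cm K Ω F F' E T)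
    (l : Pl K) (hl : IT Ω E l) (χ : Ideal (𝓞 F) →*₀ ℂ) (χ' : Ideal (𝓞 F') →*₀ ℂ)
    (ψ : Ideal (𝓞 E) →*₀ ℂ) (hψ : ∀ I : Ideal (𝓞 E), ψ I =
      χ (Ideal.relNorm (𝓞 F) I) * χ' (Ideal.relNorm (𝓞 F') I)) :
    d1 K ψ l = ∑ᶠ p ∈ {p : (F →ₐ[K] Ω) × (F' →ₐ[K] Ω) |
        p ∈ T ∧ p.1 ∈ fx F (fr Q l) ∧ p.2 ∈ fx F' (fr Q l)},
      χ (pe F Q l p.1).asIdeal * χ' (pe F' Q l p.2).asIdeal := by
  have h1 : d1 K ψ l = ∑ᶠ j ∈ fx E (fr Q l), ψ (pe E Q l j).asIdeal :=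
    dic_sum E Q l hl (fun w => ψ w.asIdeal)
  rw [h1]
  refine finsum_mem_eq_of_bijOn (fun j : E →ₐ[K] Ω => (rs F j, rs F' j)) (h.bijf (fr Q l))
    (fun j hj => ?_)
  have h2 := pe_over E Q l j
  have h3 := (dic_fix E Q l hl j).1 hj
  show ψ (pe E Q l j).asIdeal = χ (pe F Q l (rs F j)).asIdeal * χ' (pe F' Q l (rs F' j)).asIdeal
  rw [hψ, loc_nm F l (pe E Q l j) (pe F Q l (rs F j)) h2 h3 (pe_rs F Q l j),
    loc_nm F' l (pe E Q l j) (pe F' Q l (rs F' j)) h2 h3 (pe_rs F' Q l j)]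

private theorem prod_sum {α β : Type} [Finite α] [Finite β] (A : Set α) (B : Set β) (f : α → ℂ)
    (g : β → ℂ) : (∑ᶠ a ∈ A, f a) * (∑ᶠ b ∈ B, g b) =
      ∑ᶠ p ∈ {p : α × β | p.1 ∈ A ∧ p.2 ∈ B}, f p.1 * g p.2 := by
  rw [finsum_mem_eq_finite_toFinset_sum f (Set.toFinite A),
    finsum_mem_eq_finite_toFinset_sum g (Set.toFinite B),
    finsum_mem_eq_finite_toFinset_sum _ (Set.toFinite {p : α × β | p.1 ∈ A ∧ p.2 ∈ B}),
    Finset.sum_mul_sum, ← Finset.sum_product']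
  refine Finset.sum_congr ?_ fun _ _ => rfl
  ext p
  rw [Finset.mem_product, Set.Finite.mem_toFinset, Set.Finite.mem_toFinset,
    Set.Finite.mem_toFinset]
  rfl

private theorem fin_emb (K Ω F : Type) [Field K] [NumberField K] [Field Ω] [Algebra K Ω]
    [Field F] [NumberField F] [Algebra K F] : Finite (F →ₐ[K] Ω) := by
  have : FiniteDimensional K F := Module.Finite.of_restrictScalars_finite ℚ K F
  infer_instance

theorem loc9 (h : Cm K Ω F F' E Set.univ)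
    (l : Pl K) (hl : IT Ω E l) (χ : Ideal (𝓞 F) →*₀ ℂ) (χ' : Ideal (𝓞 F') →*₀ ℂ)
    (ψ : Ideal (𝓞 E) →*₀ ℂ) (hψ : ∀ I : Ideal (𝓞 E), ψ I =
      χ (Ideal.relNorm (𝓞 F) I) * χ' (Ideal.relNorm (𝓞 F') I)) :
    d1 K χ l * d1 K χ' l = d1 K ψ l := by
  obtain ⟨Q⟩ := exists_DP K Ω
  have : Finite (F →ₐ[K] Ω) := fin_emb K Ω F
  have : Finite (F' →ₐ[K] Ω) := fin_emb K Ω F'
  have h1 : d1 K χ l = ∑ᶠ j ∈ fx F (fr Q l), χ (pe F Q l j).asIdeal :=
    dic_sum F Q l (it_down F hl) (fun w => χ w.asIdeal)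
  have h2 : d1 K χ' l = ∑ᶠ j ∈ fx F' (fr Q l), χ' (pe F' Q l j).asIdeal :=
    dic_sum F' Q l (it_down F' hl) (fun w => χ' w.asIdeal)
  rw [h1, h2, loc Q h l hl χ χ' ψ hψ, prod_sum]
  have h3 : {p : (F →ₐ[K] Ω) × (F' →ₐ[K] Ω) | p.1 ∈ fx F (fr Q l) ∧ p.2 ∈ fx F' (fr Q l)} =
      {p : (F →ₐ[K] Ω) × (F' →ₐ[K] Ω) |
        p ∈ Set.univ ∧ p.1 ∈ fx F (fr Q l) ∧ p.2 ∈ fx F' (fr Q l)} := by
    ext p
    exact ⟨fun h => ⟨trivial, h⟩, fun h => h.2⟩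
  rw [h3]

private theorem pe_gm (Q : DP K Ω) (l : Pl K) (e : F ≃ₐ[K] F') (ι : F →ₐ[K] Ω) :
    (pe F' Q l (ι.comp (e.symm : F' →ₐ[K] F))).asIdeal = gm e (pe F Q l ι).asIdeal := by
  ext y
  obtain ⟨x, rfl⟩ := (RingOfIntegers.mapRingEquiv e.toRingEquiv : 𝓞 F ≃+* 𝓞 F').surjective y
  rw [gm_mem, mem_pe, mem_pe]
  have h1 : ro (ι.comp (e.symm : F' →ₐ[K] F))
      ((RingOfIntegers.mapRingEquiv e.toRingEquiv : 𝓞 F ≃+* 𝓞 F') x) = ro ι x := by
    apply RingOfIntegers.ext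
    show ι (e.symm (e (x : F))) = ι (x : F)
    rw [AlgEquiv.symm_apply_apply]
  rw [h1]

theorem loc6 {e : F ≃ₐ[K] F'} (h : Cm K Ω F F' E (T6 e))
    (l : Pl K) (hl : IT Ω E l) (χ : Ideal (𝓞 F) →*₀ ℂ) (χ' : Ideal (𝓞 F') →*₀ ℂ)
    (ψ : Ideal (𝓞 E) →*₀ ℂ) (hψ : ∀ I : Ideal (𝓞 E), ψ I =
      χ (Ideal.relNorm (𝓞 F) I) * χ' (Ideal.relNorm (𝓞 F') I))
    (ρ : Ideal (𝓞 F) →*₀ ℂ) (hρ : ∀ I : Ideal (𝓞 F), ρ I = χ I * χ' (gm e I)) :
    d1 K χ l * d1 K χ' l = d1 K ρ l + d1 K ψ l := by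
  obtain ⟨Q⟩ := exists_DP K Ω
  have : Finite (F →ₐ[K] Ω) := fin_emb K Ω F
  have : Finite (F' →ₐ[K] Ω) := fin_emb K Ω F'
  have h1 : d1 K χ l = ∑ᶠ j ∈ fx F (fr Q l), χ (pe F Q l j).asIdeal :=
    dic_sum F Q l (it_down F hl) (fun w => χ w.asIdeal)
  have h2 : d1 K χ' l = ∑ᶠ j ∈ fx F' (fr Q l), χ' (pe F' Q l j).asIdeal :=
    dic_sum F' Q l (it_down F' hl) (fun w => χ' w.asIdeal)
  have h3 : d1 K ρ l = ∑ᶠ j ∈ fx F (fr Q l), ρ (pe F Q l j).asIdeal :=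
    dic_sum F Q l (it_down F hl) (fun w => ρ w.asIdeal)
  let A : Set ((F →ₐ[K] Ω) × (F' →ₐ[K] Ω)) :=
    {p | p.2.comp (e : F →ₐ[K] F') = p.1 ∧ p.1 ∈ fx F (fr Q l) ∧ p.2 ∈ fx F' (fr Q l)}
  let B : Set ((F →ₐ[K] Ω) × (F' →ₐ[K] Ω)) :=
    {p | p ∈ T6 e ∧ p.1 ∈ fx F (fr Q l) ∧ p.2 ∈ fx F' (fr Q l)}
  have h4 : {p : (F →ₐ[K] Ω) × (F' →ₐ[K] Ω) | p.1 ∈ fx F (fr Q l) ∧ p.2 ∈ fx F' (fr Q l)} =
      A ∪ B := by
    ext p
    constructor
    · intro h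
      by_cases h5 : p.2.comp (e : F →ₐ[K] F') = p.1
      · exact Or.inl ⟨h5, h⟩
      · exact Or.inr ⟨h5, h⟩
    · rintro (h | h)
      · exact h.2
      · exact h.2
  have h5 : Disjoint A B := by
    rw [Set.disjoint_left]
    intro p hp hp'
    exact hp'.1 hp.1
  rw [h1, h2, prod_sum, h4, finsum_mem_union h5 (Set.toFinite A) (Set.toFinite B)]
  congr 1
  · rw [h3]
    symm
    refine finsum_mem_eq_of_bijOn (fun ι : F →ₐ[K] Ω => (ι, ι.comp (e.symm : F' →ₐ[K] F)))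
      ⟨fun ι hι => ⟨?_, hι, ?_⟩, fun ι _ ι' _ hh => congrArg Prod.fst hh, ?_⟩ (fun ι _ => ?_)
    · apply AlgHom.ext
      intro x
      show ι (e.symm (e x)) = ι x
      rw [AlgEquiv.symm_apply_apply]
    · have h6 : ac (fr Q l) ι = ι := hι
      show ac (fr Q l) (ι.comp (e.symm : F' →ₐ[K] F)) = ι.comp (e.symm : F' →ₐ[K] F)
      apply AlgHom.ext
      intro x
      exact DFunLike.congr_fun h6 (e.symm x)
    · rintro ⟨ι, ι'⟩ ⟨hp1, hp2, hp3⟩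
      refine ⟨ι, hp2, Prod.ext rfl ?_⟩
      have hp1' : ι'.comp (e : F →ₐ[K] F') = ι := hp1
      apply AlgHom.ext
      intro x
      show ι (e.symm x) = ι' x
      rw [← hp1']
      show ι' (e (e.symm x)) = ι' x
      rw [AlgEquiv.apply_symm_apply]
    · show ρ (pe F Q l ι).asIdeal = χ (pe F Q l ι).asIdeal *
        χ' (pe F' Q l (ι.comp (e.symm : F' →ₐ[K] F))).asIdeal
      rw [hρ, pe_gm]
  · rw [loc Q h l hl χ χ' ψ hψ]

end H1.SL
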