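import Pool.Agent.H1.SL.Df
import Pool.Agent.H57.SL.Cbl
import Pool.Agent.H57.SL.Bdn
import Pool.Agent.H57.LC.Asm
import Pool.Agent.H1.LS4.Ics
import Pool.Agent.H1.LS4.Cpf
import Pool.Agent.H57.AN.Ifa

/-!
# [H1 SL LS1] The sum of one character over the squarefree products (90-130 lines)

`sq_sf`: `x.sq Y = ∑_{q ∈ AS K S Y} ∏_{l ∈ q} x.lp l`, `AS K S Y` = the `q ∈ AF K Y` without elements in `S`; `(prK K).SF Y = AF K Y` (`H57.AN.ifa_SF` in `H57/AN/Ifa`); `off S x.lp` is `x.lp` outside `S` and `0` on `S`, so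
the products over the `q` with an element in `S` are `0` (`pd`, `Finset.sum_filter`, `Finset.prod_eq_zero`).

`off_le`: `cbl_lp3`.

`md_n0`, `md_abs`: the modulus `mS S ≠ ⊥` (`span {8}` times a product of primes), `md 𝔪 E ≠ ⊥` and `absNorm (md 𝔪 E) = (absNorm 𝔪) ^ [E : K]`: see the private `cor_md` in `H1/LS4/Cor.lean`.

`ls1`: `F = x.c.F` is totally complex of degree `3 n` (`tc_up hK x.c.deg`). `H57.LC.asm1 K (n * 3) (ics (n * 3) _)` with `ψ = x.χ`, `𝔣 = mF S x.c.F`, `g = off S x.lp`, `|g| ≤ 3 ≤ 9`, `Bd = S ∪ B`, `B` from `bdn x.c` (`nr B ≤ x.c.D`; outside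
`B` the prime is unramified), local identity `cbl_lp` (`d1` is the sum in `asm1`, by definition; `off S x.lp l = x.lp l` for `l ∉ S`). `C ^ (Bd.card) ≤ C ^ (S.card) * C ^ (B.card)` (`Finset.card_union_le`, `C ≥ 1`) `≤ C ^ (S.card) * (nr B) ^ a ≤ C ^ (S.card) * D ^ a`
(`cpw K C`), `dd F ≤ C₁ D` (`ddt K`), `D ≥ 1` (`one_le_D`), `absNorm (mF S F) = (absNorm (mS S)) ^ 3` is a constant. Result: `C' D ^ (a + A) Y ^ (1 - δ)`.
-/

set_option autoImplicit false

open scoped NumberField Pointwise Classical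
open IsDedekindDomain H63.MA NumberField H36.QA H57.LI H57.SL H1.LS4 H67.SX H38.ML

noncomputable section

namespace H1.SL

variable {K : IntermediateField ℚ QBar} [NumberField K] {S : Finset (Pl K)}

theorem sq_sf (x : AQ K S) (Y : ℝ) :
    x.sq Y = ∑ s ∈ (prK K).SF Y, pd (off S x.lp) s := by
  rw [H57.AN.ifa_SF]
  unfold AQ.sq AS pd
  rw [Finset.sum_filter]
  refine Finset.sum_congr rfl fun q _ => ?_
  by_cases h : ∀ l ∈ q, l ∉ S
  · rw [if_pos h]
    refine Finset.prod_congr rfl fun l hl => ?_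
    unfold off
    rw [if_neg (h l hl)]
  · rw [if_neg h]
    push Not at h
    obtain ⟨l, hl, hlS⟩ := h
    symm
    refine Finset.prod_eq_zero hl ?_
    unfold off
    rw [if_pos hlS]

theorem off_le (x : AQ K S) (l : Pl K) : |off S x.lp l| ≤ 3 := by
  unfold off
  by_cases h : l ∈ S
  · rw [if_pos h, abs_zero]
    norm_num
  · rw [if_neg h]
    exact cbl_lp3 x l

private theorem ms_n0 (K : IntermediateField ℚ QBar) [NumberField K] (S : Finset (Pl K)) :
    H48.T3.mS S ≠ ⊥ := by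
  unfold H48.T3.mS
  rw [← Ideal.zero_eq_bot]
  refine mul_ne_zero ?_ ?_
  · rw [Ne, Ideal.zero_eq_bot, Ideal.span_singleton_eq_bot]
    norm_num
  · exact Finset.prod_ne_zero_iff.2 fun v _ => by
      rw [Ne, Ideal.zero_eq_bot]
      exact v.ne_bot

theorem md_n0 (K : IntermediateField ℚ QBar) [NumberField K] (S : Finset (Pl K)) (E : Type)
    [Field E] [NumberField E] [Algebra K E] : md (H48.T3.mS S) E ≠ ⊥ := by
  unfold md
  intro h1
  exact ms_n0 K S ((Ideal.map_eq_bot_iff_of_injective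
    (FaithfulSMul.algebraMap_injective (𝓞 K) (𝓞 E))).1 h1)

theorem md_abs (K : IntermediateField ℚ QBar) [NumberField K] (S : Finset (Pl K)) (E : Type)
    [Field E] [NumberField E] [Algebra K E] {d : ℕ} (hd : Module.finrank K E = d) :
    Ideal.absNorm (md (H48.T3.mS S) E) = Ideal.absNorm (H48.T3.mS S) ^ d ∧
      1 ≤ Ideal.absNorm (H48.T3.mS S) := by
  constructor
  · unfold md
    rw [Ideal.absNorm_algebraMap, ← IsFractionRing.finrank_eq (𝓞 K) K (𝓞 E) E, hd]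
  · exact Nat.one_le_iff_ne_zero.2 fun h => ms_n0 K S (Ideal.absNorm_eq_zero_iff.1 h)

theorem ls1 (K : IntermediateField ℚ QBar) [NumberField K] {n : ℕ} (hn : 0 < n) (hK : TC K n)
    (S : Finset (Pl K)) (h2 : ∀ v : Pl K, Above 2 v → v ∈ S) : LS1 K S := by
  obtain ⟨C, A, δ, hC, hδ, hδ4, hasm⟩ := H57.LC.asm1 K (n * 3) (ics (n * 3) (by omega))
  obtain ⟨a, ha⟩ := cpw K C
  obtain ⟨C₁, hC₁, hddt⟩ := ddt K
  obtain ⟨N, hN⟩ : ∃ N : ℝ, N = (Ideal.absNorm (H48.T3.mS S) : ℝ) := ⟨_, rfl⟩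
  have hN1 : 1 ≤ N := by
    rw [hN]
    exact_mod_cast (md_abs K S K (Module.finrank_self K)).2
  have hC0 : 0 ≤ C := by linarith
  refine ⟨C * C ^ S.card * (C₁ * N ^ 3) ^ A, a + A, δ, ?_, hδ, by linarith, fun x Y hY => ?_⟩
  · refine one_le_mul_of_one_le_of_one_le (one_le_mul_of_one_le_of_one_le hC (one_le_pow₀ hC))
      (one_le_pow₀ (one_le_mul_of_one_le_of_one_le hC₁ (one_le_pow₀ hN1)))
  obtain ⟨B, hB1, hB⟩ := bdn x.c
  have hD1 := one_le_D x.c
  have hdd1 := one_le_dd x.c.F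
  have h1 := hasm x.c.F (tc_up hK x.c.deg) (mF S x.c.F) (md_n0 K S x.c.F) x.χ x.non (off S x.lp)
    (fun l => (off_le x l).trans (by norm_num)) (S ∪ B) (by
      intro l hl
      rw [Finset.mem_union, not_or] at hl
      have h3 : off S x.lp l = x.lp l := if_neg hl.1
      rw [h3]
      exact (cbl_lp h2 x l hl.1 (hB l hl.2)).symm) Y hY
  rw [sq_sf]
  refine h1.trans (mul_le_mul_of_nonneg_right ?_ (Real.rpow_nonneg (by linarith) _))
  have h4 : C ^ (S ∪ B).card ≤ C ^ S.card * x.c.D ^ a := by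
    calc C ^ (S ∪ B).card ≤ C ^ (S.card + B.card) :=
          pow_le_pow_right₀ hC (Finset.card_union_le _ _)
      _ = C ^ S.card * C ^ B.card := pow_add _ _ _
      _ ≤ C ^ S.card * x.c.D ^ a := by
          refine mul_le_mul_of_nonneg_left ((ha B).trans ?_) (pow_nonneg hC0 _)
          exact pow_le_pow_left₀ (Finset.prod_nonneg fun l _ => Nat.cast_nonneg _) hB1 _
  have h5 : (dd x.c.F * (Ideal.absNorm (mF S x.c.F) : ℝ)) ^ A ≤ (C₁ * N ^ 3) ^ A * x.c.D ^ A := by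
    rw [← mul_pow]
    have h6 : (Ideal.absNorm (mF S x.c.F) : ℝ) = N ^ 3 := by
      rw [(md_abs K S x.c.F x.c.deg).1, hN]
      push_cast
      ring
    rw [h6]
    refine pow_le_pow_left₀ (by positivity) ?_ _
    calc dd x.c.F * N ^ 3 ≤ (C₁ * x.c.D) * N ^ 3 :=
          mul_le_mul_of_nonneg_right (hddt x.c) (by positivity)
      _ = C₁ * N ^ 3 * x.c.D := by ring
  have hD0 : 0 ≤ x.c.D := by linarith
  calc C * C ^ (S ∪ B).card * (dd x.c.F * (Ideal.absNorm (mF S x.c.F) : ℝ)) ^ A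
      ≤ C * (C ^ S.card * x.c.D ^ a) * ((C₁ * N ^ 3) ^ A * x.c.D ^ A) := by
        refine mul_le_mul (mul_le_mul_of_nonneg_left h4 hC0) h5 (by positivity) (by positivity)
    _ = C * C ^ S.card * (C₁ * N ^ 3) ^ A * x.c.D ^ (a + A) := by
        rw [pow_add]
        ring

end H1.SL
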