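import Pool.Agent.H1.SL.Df

/-!
# [H1 SL RCN] Pulling back ray class characters to a finite extension, not necessarily Galois (100-150 lines)

This is `nch` of `H1/LS4/Nch.lean` (read it first; its private lemmas may be copied: `nch_mdmd`, `nch_desc`, `nch_coll`, `nch_ncop` do not use Galois) without the hypothesis `IsGalois F E`.
Only two points change.

`rcn_cop`: suppose a maximal ideal `P` of `𝓞 F` contains `relNorm I` and `J`. `I` is the product of its prime factors `𝔓` (`I ≠ ⊥`; `UniqueFactorizationMonoid.normalizedFactors`, or induction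
`UniqueFactorizationMonoid.induction_on_prime`), `relNorm I` the product of the `relNorm 𝔓 = (𝔓 ∩ 𝓞 F) ^ f` (Mathlib `Ideal.relNorm_eq_pow_of_isMaximal` or `Ideal.exists_relNorm_eq_pow_of_isPrime`), `P` is prime and contains this
product, so `P` contains some `𝔓 ∩ 𝓞 F`, which is maximal, so `P = 𝔓 ∩ 𝓞 F` with `𝔓 ∣ I`, i.e. `I ≤ 𝔓`, and `md J E ≤ md P E ≤ 𝔓`. So `I` and `md J E` are not coprime.

The congruence (`nch_cong` for non Galois `E / F`): `x - 1 ∈ md J E` implies `Algebra.intNorm (𝓞 F) (𝓞 E) x - 1 ∈ J`. Let `N` be a finite Galois extension of `F` with an `F`-embedding of `E`, e.g.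
`N = normalClosure F E (AlgebraicClosure E)` (`NumberField N`: finite over `F`; `IsGalois F N`: normal and characteristic 0; `Algebra E N`, `IsScalarTower F E N`). In `N`: `Algebra.norm F x = ∏_{σ : E →ₐ[F] N} σ x`
(Mathlib: `Algebra.norm_eq_prod_embeddings` for an algebraically closed field `Ω ⊇ N` (`Ω = AlgebraicClosure E`), where every embedding `E → Ω` over `F` has values in `N` because `N` is normal:
`AlgHom.fieldRange_of_normal`-type lemma, `normalClosure.restrictScalars..`; or use the extension of every embedding to an automorphism of `N`). Every `F`-embedding `σ : E → N` extends to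
an `F`-automorphism of `N`; in any case `σ` maps `𝓞 E` to `𝓞 N` and `md J E` into `md J N` (generators `y z`, `y ∈ J`, `z ∈ 𝓞 E`, `σ (y z) = y σ z`). So `σ x ≡ 1` modulo `md J N` and
`intNorm x - 1 ∈ 𝓞 F` has its image in `md J N`; by `nch_coll` (`E := N`) it is in `J`. (Alternative without `N`: work in `𝓞 Ω`, `Ω` an algebraic closure of `F`: `∏_j (j x) - 1` is in
`J 𝓞 Ω`, a finite sum of `y_i z_i`, `z_i` in some finite extension `N` of `F`, then `nch_coll`.)
-/

set_option autoImplicit false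

open scoped NumberField Pointwise Classical
open IsDedekindDomain H63.MA NumberField H57.LI H57.SL H1.LS4

noncomputable section

namespace H1.SL

section aux

variable {F E : Type} [Field F] [NumberField F] [Field E] [NumberField E] [Algebra F E]

private theorem rcn_mdmd {K F E : Type} [Field K] [NumberField K] [Field F] [NumberField F]
    [Algebra K F] [Field E] [NumberField E] [Algebra K E] [Algebra F E] [IsScalarTower K F E]
    (𝔪 : Ideal (𝓞 K)) : md (md 𝔪 F) E = md 𝔪 E := by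
  unfold md
  rw [Ideal.map_map]
  congr 1
  refine RingHom.ext fun x => RingOfIntegers.coe_injective ?_
  have h1 : algebraMap (𝓞 E) E (((algebraMap (𝓞 F) (𝓞 E)).comp (algebraMap (𝓞 K) (𝓞 F))) x) =
      algebraMap F E (algebraMap K F (algebraMap (𝓞 K) K x)) := rfl
  have h2 : algebraMap (𝓞 E) E (algebraMap (𝓞 K) (𝓞 E) x) = algebraMap K E (algebraMap (𝓞 K) K x) := rfl
  rw [h1, h2, ← IsScalarTower.algebraMap_apply K F E]

private theorem rcn_coll {I J : Ideal (𝓞 F)} (h : md I E ≤ md J E) : I ≤ J := by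
  have h1 := Ideal.relNorm_mono (𝓞 F) h
  unfold md at h1
  rw [Ideal.relNorm_algebraMap, Ideal.relNorm_algebraMap] at h1
  have h2 : J ^ Module.finrank (𝓞 F) (𝓞 E) ∣ I ^ Module.finrank (𝓞 F) (𝓞 E) := Ideal.dvd_iff_le.2 h1
  have h3 : Module.finrank (𝓞 F) (𝓞 E) ≠ 0 := Module.finrank_pos.ne'
  rw [UniqueFactorizationMonoid.pow_dvd_pow_iff_dvd h3] at h2
  exact Ideal.dvd_iff_le.1 h2

private theorem rcn_ncop {I : Ideal (𝓞 E)} {J : Ideal (𝓞 F)} (h : ¬ IsCoprime I (md J E)) :
    ¬ IsCoprime (Ideal.relNorm (𝓞 F) I) J := by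
  rw [Ideal.isCoprime_iff_sup_eq] at h ⊢
  obtain ⟨P, hP, hle⟩ := Ideal.exists_le_maximal _ h
  intro hc
  have h1 : Ideal.relNorm (𝓞 F) I ≤ P.comap (algebraMap (𝓞 F) (𝓞 E)) :=
    (Ideal.relNorm_mono (𝓞 F) (le_sup_left.trans hle)).trans (Ideal.relNorm_le_comap (𝓞 F) P)
  have h2 : J ≤ P.comap (algebraMap (𝓞 F) (𝓞 E)) :=
    Ideal.map_le_iff_le_comap.1 (le_sup_right.trans hle)
  have h3 := sup_le h1 h2
  rw [hc, top_le_iff, Ideal.comap_eq_top_iff] at h3
  exact hP.ne_top h3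

/-- a maximal ideal which contains the norm is below a prime divisor -/
private theorem rcn_fac {P : Ideal (𝓞 F)} (hP : P.IsMaximal) (I : Ideal (𝓞 E)) :
    I ≠ 0 → Ideal.relNorm (𝓞 F) I ≤ P →
      ∃ Q : Ideal (𝓞 E), Q ≠ ⊤ ∧ I ≤ Q ∧ P ≤ Q.comap (algebraMap (𝓞 F) (𝓞 E)) := by
  induction I using UniqueFactorizationMonoid.induction_on_prime with
  | h₁ => exact fun h => absurd rfl h
  | h₂ x hx =>
    intro _ h
    rw [Ideal.isUnit_iff] at hx
    rw [hx, Ideal.relNorm_top, top_le_iff] at h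
    exact absurd h hP.ne_top
  | h₃ a p ha hp ih =>
    intro _ h
    rw [map_mul] at h
    rcases (hP.isPrime.mul_le).1 h with h1 | h1
    · have : p.IsPrime := Ideal.isPrime_of_prime hp
      refine ⟨p, this.ne_top, Ideal.mul_le_left, ?_⟩
      have hp0 : p ≠ ⊥ := hp.ne_zero
      have hc : (p.comap (algebraMap (𝓞 F) (𝓞 E))).IsPrime := Ideal.IsPrime.comap _
      have hl : p.LiesOver (p.comap (algebraMap (𝓞 F) (𝓞 E))) := ⟨rfl⟩
      obtain ⟨t, ht⟩ := Ideal.exists_relNorm_eq_pow_of_isPrime p (p.comap (algebraMap (𝓞 F) (𝓞 E)))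
      rw [ht] at h1
      have h2 : p.comap (algebraMap (𝓞 F) (𝓞 E)) ≤ P := hP.isPrime.le_of_pow_le h1
      have h3 : p.comap (algebraMap (𝓞 F) (𝓞 E)) ≠ ⊥ := Ideal.IsIntegral.comap_ne_bot (𝓞 F) hp0
      have h4 : (p.comap (algebraMap (𝓞 F) (𝓞 E))).IsMaximal := hc.isMaximal h3
      exact (h4.eq_of_le hP.ne_top h2).ge
    · obtain ⟨Q, hQ1, hQ2, hQ3⟩ := ih ha h1
      exact ⟨Q, hQ1, Ideal.mul_le_right.trans hQ2, hQ3⟩

/-- the norm of an element which is `1` modulo `J 𝓞_E` is `1` modulo `J` -/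
private theorem rcn_cong {J : Ideal (𝓞 F)} {x : 𝓞 E} (hx : x - 1 ∈ md J E) :
    Algebra.intNorm (𝓞 F) (𝓞 E) x - 1 ∈ J := by
  obtain ⟨N, hN⟩ : ∃ N : IntermediateField F (AlgebraicClosure F),
      N = IntermediateField.normalClosure F E (AlgebraicClosure F) := ⟨_, rfl⟩
  have : FiniteDimensional F N := by
    rw [hN]
    infer_instance
  have : NumberField N := NumberField.of_module_finite F N
  have hr : ∀ j : E →ₐ[F] AlgebraicClosure F, ∀ z : E, j z ∈ N := by
    intro j z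
    rw [hN]
    exact AlgHom.fieldRange_le_normalClosure j ⟨z, rfl⟩
  obtain ⟨r, hrd⟩ : ∃ r : (E →ₐ[F] AlgebraicClosure F) → (E →ₐ[F] N),
      ∀ j z, ((r j z : N) : AlgebraicClosure F) = j z :=
    ⟨fun j => j.codRestrict N.toSubalgebra (hr j), fun j z => rfl⟩
  have h1 : ∀ j : E →ₐ[F] AlgebraicClosure F,
      RingOfIntegers.mapRingHom (r j : E →+* N) x - 1 ∈ md J N := by
    intro j
    have h2 : (md J E).map (RingOfIntegers.mapRingHom (r j : E →+* N)) = md J N := by
      unfold md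
      rw [Ideal.map_map]
      congr 1
      refine RingHom.ext fun z => RingOfIntegers.coe_injective ?_
      exact (r j).commutes (z : F)
    rw [← h2, ← map_one (RingOfIntegers.mapRingHom (r j : E →+* N)), ← map_sub]
    exact Ideal.mem_map_of_mem _ hx
  have h2 : algebraMap (𝓞 F) (𝓞 N) (Algebra.intNorm (𝓞 F) (𝓞 E) x) =
      ∏ j : E →ₐ[F] AlgebraicClosure F, RingOfIntegers.mapRingHom (r j : E →+* N) x := by
    apply RingOfIntegers.coe_injective
    apply (algebraMap N (AlgebraicClosure F)).injective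
    rw [map_prod, map_prod]
    have h3 : algebraMap N (AlgebraicClosure F) (algebraMap (𝓞 N) N (algebraMap (𝓞 F) (𝓞 N)
        (Algebra.intNorm (𝓞 F) (𝓞 E) x))) = algebraMap F (AlgebraicClosure F)
          (algebraMap (𝓞 F) F (Algebra.intNorm (𝓞 F) (𝓞 E) x)) := rfl
    rw [h3, Algebra.algebraMap_intNorm (A := 𝓞 F) (K := F) (L := E) (B := 𝓞 E),
      Algebra.norm_eq_prod_embeddings]
    exact Finset.prod_congr rfl fun j _ => (hrd j _).symm
  have h3 : algebraMap (𝓞 F) (𝓞 N) (Algebra.intNorm (𝓞 F) (𝓞 E) x) - 1 ∈ md J N := by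
    rw [← Ideal.Quotient.eq, h2, map_prod, map_one]
    refine Finset.prod_eq_one fun j _ => ?_
    rw [← map_one (Ideal.Quotient.mk (md J N)), Ideal.Quotient.eq]
    exact h1 j
  have h4 : md (Ideal.span {Algebra.intNorm (𝓞 F) (𝓞 E) x - 1}) N ≤ md J N := by
    have h5 : md (Ideal.span {Algebra.intNorm (𝓞 F) (𝓞 E) x - 1}) N =
        Ideal.span {algebraMap (𝓞 F) (𝓞 N) (Algebra.intNorm (𝓞 F) (𝓞 E) x) - 1} := by
      unfold md
      rw [Ideal.map_span, Set.image_singleton, map_sub, map_one]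
    rw [h5, Ideal.span_singleton_le_iff_mem]
    exact h3
  have h5 := rcn_coll h4
  rwa [Ideal.span_singleton_le_iff_mem] at h5

end aux

theorem rcn_cop {F E : Type} [Field F] [NumberField F] [Field E] [NumberField E] [Algebra F E]
    {I : Ideal (𝓞 E)} {J : Ideal (𝓞 F)} (hI : I ≠ ⊥) (h : IsCoprime I (md J E)) :
    IsCoprime (Ideal.relNorm (𝓞 F) I) J := by
  rw [Ideal.isCoprime_iff_sup_eq] at h ⊢
  by_contra hc
  obtain ⟨P, hP, hle⟩ := Ideal.exists_le_maximal _ hc
  obtain ⟨Q, hQ1, hQ2, hQ3⟩ := rcn_fac hP I hI (le_sup_left.trans hle)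
  have h1 : md J E ≤ Q := by
    unfold md
    rw [Ideal.map_le_iff_le_comap]
    exact (le_sup_right.trans hle).trans hQ3
  have h2 := sup_le hQ2 h1
  rw [h, top_le_iff] at h2
  exact hQ1 h2

theorem rcn {K F E : Type} [Field K] [NumberField K] [Field F] [NumberField F] [Algebra K F]
    [Field E] [NumberField E] [Algebra K E] [Algebra F E] [IsScalarTower K F E] {𝔪 : Ideal (𝓞 K)}
    (χ : RC F (md 𝔪 F)) :
    ∃ ψ : RC E (md 𝔪 E), ∀ I : Ideal (𝓞 E), ψ.χ I = χ.χ (Ideal.relNorm (𝓞 F) I) := by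
  have hm : md 𝔪 E = md (md 𝔪 F) E := (rcn_mdmd 𝔪).symm
  refine ⟨⟨χ.χ.comp (Ideal.relNorm (𝓞 F)), ?_, ?_, ?_⟩, fun I => rfl⟩
  · intro I hI hc
    rw [hm] at hc
    exact χ.norm_one _ (fun h => hI (Ideal.relNorm_eq_bot_iff.1 h)) (rcn_cop hI hc)
  · intro I hc
    rw [hm] at hc
    exact χ.zero_of _ (rcn_ncop hc)
  · intro x hx hx1
    rw [hm] at hx1
    have h1 : (χ.χ.comp (Ideal.relNorm (𝓞 F))) (Ideal.span {x}) =
        χ.χ (Ideal.relNorm (𝓞 F) (Ideal.span {x})) := rfl
    rw [h1, Ideal.relNorm_singleton]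
    exact χ.ray _ (Algebra.intNorm_ne_zero.2 hx) (rcn_cong hx1)

end H1.SL
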