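import Pool.Agent.H1.SL.Idn
import Pool.Agent.H1.SL.Rcn

/-!
# [H1 SL NON] The character of the compositum is not trivial (80-110 lines)

`QT 𝔪 χ` (`H1/LS4/Gdf`): `χ` has the values `1`, `-1` on the ideals `≠ ⊥` prime to `md 𝔪 F`, and `1` on `md J F`, `J ≠ ⊥` prime to `𝔪`. `RC.Non` (`H63/MA/Ray`): some `I ≠ ⊥` prime to the modulus has `χ I ≠ 1`.

`non9`: take `I ≠ ⊥` prime to `md 𝔪 F` with `χ I ≠ 1`, so `χ I = -1`. Let `J = md I E = I 𝓞 E`. `J ≠ ⊥` and `J` is prime to `md 𝔪 E = md (md 𝔪 F) E` (`nch_mdmd` in `H1/LS4/Nch.lean`, copy; the image of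
`I ⊔ md 𝔪 F = ⊤`, `Ideal.map_sup`). `relNorm (𝓞 F) J = I ^ 3` (`Ideal.relNorm_algebraMap`; `finrank (𝓞 F) (𝓞 E) = [E : F]` as in `cor_md` in `H1/LS4/Cor.lean`, `IsFractionRing.finrank_eq`; `[E : F] = 9 / 3`,
`Module.finrank_mul_finrank K F E`). `relNorm (𝓞 F') J = md (relNorm (𝓞 K) I) F'` (`idn9`), and `relNorm (𝓞 K) I` is prime to `𝔪` (`rcn_cop` for `F / K`) and not `⊥` (`Ideal.relNorm_eq_bot_iff`), so
`χ'` of it is `1` (`hχ'.triv`). So `ψ J = (-1) ^ 3 * 1 = -1 ≠ 1`.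

`non6`: take `I' ≠ ⊥` prime to `md 𝔪 F'` with `χ' I' = -1`, `I = gm e.symm I'` (so `gm e I = I'`: `gm_trans`, `gm_refl`; `I ≠ ⊥`, prime to `md 𝔪 F`: `gm_bot`, `gm_cop`, `gm_md` in `H1/LS4/Gal`), `J = md I E`.
`relNorm (𝓞 F) J = I ^ 2`, so `χ (I ^ 2) = (χ I) ^ 2 = 1` (`QT.quad`). `relNorm (𝓞 F') J * I' = md (relNorm (𝓞 K) I) F'` (`idn6`), so `χ' (relNorm (𝓞 F') J) * χ' I' = 1` and
`χ' (relNorm (𝓞 F') J) = -1`. So `ψ J = -1 ≠ 1`.
-/

set_option autoImplicit false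

open scoped NumberField Pointwise Classical
open IsDedekindDomain H63.MA NumberField H57.LI H57.SL H1.LS4

noncomputable section

namespace H1.SL

variable {K Ω F F' E : Type} [Field K] [NumberField K] [Field Ω] [Algebra K Ω]
    [IsAlgClosure K Ω] [Field F] [NumberField F] [Field F'] [NumberField F'] [Algebra K F]
    [Algebra K F'] [Field E] [NumberField E] [Algebra K E] [Algebra F E] [Algebra F' E]
    [IsScalarTower K F E] [IsScalarTower K F' E] {𝔪 : Ideal (𝓞 K)}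

omit [NumberField K] in
private theorem non_mdmd [NumberField K] (𝔪 : Ideal (𝓞 K)) : md (md 𝔪 F) E = md 𝔪 E := by
  unfold md
  rw [Ideal.map_map]
  congr 1
  refine RingHom.ext fun x => RingOfIntegers.coe_injective ?_
  have h1 : algebraMap (𝓞 E) E (((algebraMap (𝓞 F) (𝓞 E)).comp (algebraMap (𝓞 K) (𝓞 F))) x) =
      algebraMap F E (algebraMap K F (algebraMap (𝓞 K) K x)) := rfl
  have h2 : algebraMap (𝓞 E) E (algebraMap (𝓞 K) (𝓞 E) x) =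
      algebraMap K E (algebraMap (𝓞 K) K x) := rfl
  rw [h1, h2, ← IsScalarTower.algebraMap_apply K F E]

private theorem non_cop (A B : Ideal (𝓞 F)) (h : IsCoprime A B) :
    IsCoprime (md A E) (md B E) := by
  rw [Ideal.isCoprime_iff_sup_eq] at h ⊢
  unfold md
  rw [← Ideal.map_sup, h, Ideal.map_top]

private theorem non_rel (n m k : ℕ) (h1 : Module.finrank K F = n) (h2 : Module.finrank K E = m)
    (hn : 0 < n) (hk : m = n * k) (I : Ideal (𝓞 F)) :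
    Ideal.relNorm (𝓞 F) (md I E) = I ^ k := by
  unfold md
  have h3 : Module.finrank (𝓞 F) (𝓞 E) = k := by
    rw [← IsFractionRing.finrank_eq (𝓞 F) F (𝓞 E) E]
    have h4 := Module.finrank_mul_finrank K F E
    rw [h1, h2, hk] at h4
    exact Nat.eq_of_mul_eq_mul_left hn h4
  rw [Ideal.relNorm_algebraMap, h3]

private theorem non_bot (I : Ideal (𝓞 F)) (h : I ≠ ⊥) (n m k : ℕ)
    (h1 : Module.finrank K F = n) (h2 : Module.finrank K E = m)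
    (hn : 0 < n) (hk : m = n * k) (hk' : 0 < k) : md I E ≠ ⊥ := by
  intro h0
  have h3 := non_rel (E := E) n m k h1 h2 hn hk I
  rw [h0, Ideal.relNorm_bot] at h3
  exact h (pow_eq_zero_iff hk'.ne' |>.1 h3.symm)

theorem non9 (h : Cm K Ω F F' E Set.univ) (h3 : Module.finrank K F = 3)
    (h9 : Module.finrank K E = 9) (χ : RC F (md 𝔪 F)) (χ' : RC F' (md 𝔪 F'))
    (hχ : QT 𝔪 χ) (hχ' : QT 𝔪 χ') (hn : χ.Non) (ψ : RC E (md 𝔪 E))
    (hψ : ∀ I : Ideal (𝓞 E), ψ.χ I =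
      χ.χ (Ideal.relNorm (𝓞 F) I) * χ'.χ (Ideal.relNorm (𝓞 F') I)) : ψ.Non := by
  obtain ⟨I, hI0, hIc, hI1⟩ := hn
  have hI2 : χ.χ I = -1 := (hχ.quad I hI0 hIc).resolve_left hI1
  refine ⟨md I E, non_bot I hI0 3 9 3 h3 h9 (by norm_num) (by norm_num) (by norm_num), ?_, ?_⟩
  · rw [← non_mdmd (F := F) (E := E) 𝔪]
    exact non_cop I (md 𝔪 F) hIc
  · rw [hψ, non_rel 3 9 3 h3 h9 (by norm_num) (by norm_num) I, idn9 h I hI0, map_pow, hI2,
      hχ'.triv _ (by rwa [Ne, Ideal.relNorm_eq_bot_iff]) (rcn_cop hI0 hIc)]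
    norm_num

theorem non6 {e : F ≃ₐ[K] F'} (h : Cm K Ω F F' E (T6 e)) (h3 : Module.finrank K F = 3)
    (h6 : Module.finrank K E = 6) (χ : RC F (md 𝔪 F)) (χ' : RC F' (md 𝔪 F'))
    (hχ : QT 𝔪 χ) (hχ' : QT 𝔪 χ') (hn : χ'.Non) (ψ : RC E (md 𝔪 E))
    (hψ : ∀ I : Ideal (𝓞 E), ψ.χ I =
      χ.χ (Ideal.relNorm (𝓞 F) I) * χ'.χ (Ideal.relNorm (𝓞 F') I)) : ψ.Non := by
  obtain ⟨I', hI0', hIc', hI1'⟩ := hn
  have hI2' : χ'.χ I' = -1 := (hχ'.quad I' hI0' hIc').resolve_left hI1'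
  obtain ⟨I, hI⟩ : ∃ I : Ideal (𝓞 F), gm e I = I' := by
    refine ⟨gm e.symm I', ?_⟩
    rw [gm_trans]
    have h0 : e.symm.trans e = AlgEquiv.refl := AlgEquiv.ext fun x => e.apply_symm_apply x
    rw [h0, gm_refl]
  have hI0 : I ≠ ⊥ := by
    intro h0
    exact hI0' (by rw [← hI, (gm_bot e I).2 h0])
  have hIc : IsCoprime I (md 𝔪 F) := by
    rw [← gm_cop e, hI, gm_md]
    exact hIc'
  refine ⟨md I E, non_bot I hI0 3 6 2 h3 h6 (by norm_num) (by norm_num) (by norm_num), ?_, ?_⟩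
  · rw [← non_mdmd (F := F) (E := E) 𝔪]
    exact non_cop I (md 𝔪 F) hIc
  · have h1 : χ.χ (I ^ 2) = 1 := by
      rw [map_pow]
      rcases hχ.quad I hI0 hIc with h0 | h0 <;> rw [h0] <;> norm_num
    have h2 := congrArg χ'.χ (idn6 h I hI0)
    rw [hχ'.triv _ (by rwa [Ne, Ideal.relNorm_eq_bot_iff]) (rcn_cop hI0 hIc), map_mul, hI,
      hI2'] at h2
    have h4 : χ'.χ (Ideal.relNorm (𝓞 F') (md I E)) = -1 := by linear_combination -h2
    rw [hψ, non_rel 3 6 2 h3 h6 (by norm_num) (by norm_num) I, h1, h4]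
    norm_num

end H1.SL
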