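import Pool.Agent.H1.SL.Orb
import Pool.Agent.H1.SL.Non
import Pool.Agent.H1.SL.Loc
import Pool.Agent.H1.SL.Ls1
import Pool.Agent.H57.SL.Ast
import Pool.Agent.H1.LS4.Cpd
import Pool.Agent.H1.LS4.Bad
import Pool.Agent.H1.LS4.Nch

/-!
# [H1 SL CR6] The correlation of two characters over isomorphic fields (120-160 lines)

`e : x.c.F ≃ₐ[K] y.c.F`, the pairs not conjugate.

`cr6_rho`: `rtw e y.χ` and `rcml` (`H1/LS4/Nch`) give `ρ : RC F (mF S F)`, `ρ I = x.χ I * y.χ (gm e I)`. If `ρ` is not `Non` then `x.χ I * y.χ (gm e I) = 1` for all `I ≠ ⊥` prime to the modulus, and all values are `1` or `-1` (`quad`; `gm e I` is not `⊥` and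
prime to the modulus: `gm_bot`, `gm_cop`, `gm_md` in `H1/LS4/Gal`), so `y.χ (gm e I) = x.χ I`. For the other `I` both values are `0` (`zero_of`, `map_zero`). So `Cj x y`: contradiction (`Cj` in `H57/SL/Def`).

`cr6`: `cm6 QBar x.c.deg x.c.non e` gives `E` of degree 6 with `h : Cm K QBar x.c.F y.c.F E (T6 e)`, totally complex of degree `6 n` (`tc_up hK`). `rcn x.χ`, `rcn y.χ`, `rcml`: `ψ : RC E (md (mS S) E)`,
`ψ I = x.χ (relNorm I) * y.χ (relNorm I)`, `ψ.Non` by `non6` (`QT (mS S) x.χ := ⟨x.quad, x.triv⟩`, `y.non`). `ast2 K (n * 3) (n * 6)` (`H57/SL/Ast`) with `E1 = x.c.F`, `ψ1 = ρ`, `E2 = E`, `ψ2 = ψ`, `g l = off S x.lp l * off S y.lp l` (`|g| ≤ 9`: `off_le`),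
`Bd = S ∪ B`, `B` from `bad K E` (`2 ^ B.card ≤ dd E`, `Unr K E l` outside `B`). Local identity for `l ∉ Bd`: `inr_iff E l` (`H57/SL/Inr`) gives `IT QBar E l`, `it_down` gives `IT` for both fields, `inr_iff` backwards `Unr`, `cbl_lp h2` for `x`, `y`:
`(x.lp l : ℂ) = d1 K x.χ.χ l`; then `loc6`. Constants as in `Cr9` (read its header): `C ^ (B.card) ≤ (dd E) ^ a`, `cpd (n * 3) (n * 3)` with `h.gen` for `dd E`, `ddt K` for `dd x.c.F ≤ C₃ x.c.D`, `md_abs` for the norms of the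
moduli, `one_le_D`, `one_le_dd`.
-/

set_option autoImplicit false

open scoped NumberField Pointwise Classical
open IsDedekindDomain H63.MA NumberField H36.QA H57.LI H57.SL H1.LS4 H67.SX H38.ML

noncomputable section

namespace H1.SL

theorem cr6_rho {K : IntermediateField ℚ QBar} [NumberField K] {S : Finset (Pl K)}
    (x y : AQ K S) (e : x.c.F ≃ₐ[K] y.c.F) (h : ¬ Cj x y) :
    ∃ ρ : RC x.c.F (mF S x.c.F), ρ.Non ∧
      ∀ I : Ideal (𝓞 x.c.F), ρ.χ I = x.χ.χ I * y.χ.χ (gm e I) := by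
  obtain ⟨φ, hφ⟩ := rtw e y.χ
  obtain ⟨ρ, hρ⟩ := rcml x.χ φ
  have hρ' : ∀ I : Ideal (𝓞 x.c.F), ρ.χ I = x.χ.χ I * y.χ.χ (gm e I) := by
    intro I
    rw [hρ, hφ]
  refine ⟨ρ, ?_, hρ'⟩
  by_contra hnon
  apply h
  refine ⟨e, fun I => ?_⟩
  have hcop : IsCoprime (gm e I) (mF S y.c.F) ↔ IsCoprime I (mF S x.c.F) := by
    have h1 := gm_cop e I (mF S x.c.F)
    rwa [show gm e (mF S x.c.F) = mF S y.c.F from gm_md e _] at h1
  by_cases hI : I = ⊥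
  · have h1 : gm e I = ⊥ := (gm_bot e I).2 hI
    rw [h1, hI, ← Ideal.zero_eq_bot, ← Ideal.zero_eq_bot, map_zero, map_zero]
  by_cases hc : IsCoprime I (mF S x.c.F)
  · have h1 : ρ.χ I = 1 := by
      by_contra h2
      exact hnon ⟨I, hI, hc, h2⟩
    rw [hρ'] at h1
    have h3 := x.quad I hI hc
    have h4 := y.quad (gm e I) (fun h5 => hI ((gm_bot e I).1 h5)) (hcop.2 hc)
    rcases h3 with h3 | h3 <;> rcases h4 with h4 | h4 <;> rw [h3, h4] at h1 ⊢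
    · norm_num at h1
    · norm_num at h1
  · rw [x.χ.zero_of I hc, y.χ.zero_of (gm e I) fun h5 => hc (hcop.1 h5)]

theorem cr6 (K : IntermediateField ℚ QBar) [NumberField K] {n : ℕ} (hn : 0 < n) (hK : TC K n)
    (S : Finset (Pl K)) (h2 : ∀ v : Pl K, Above 2 v → v ∈ S) :
    ∃ (C : ℝ) (A : ℕ) (δ : ℝ), 1 ≤ C ∧ 0 < δ ∧ δ ≤ 1 / 4 ∧
      ∀ x y : AQ K S, Nonempty (x.c.F ≃ₐ[K] y.c.F) → ¬ Cj x y → ∀ Y : ℝ, 1 ≤ Y →
        |∑ s ∈ (prK K).SF Y, pd (fun l => off S x.lp l * off S y.lp l) s| ≤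
          C * (x.c.D * y.c.D) ^ A * Y ^ (1 - δ) := by
  obtain ⟨C, A, δ, hC, hδ, hδ4, hasm⟩ := ast2 K (n * 3) (n * 6) (by omega) (by omega)
  obtain ⟨a, ha⟩ := pow_unbounded_of_one_lt C (one_lt_two : (1 : ℝ) < 2)
  obtain ⟨C₁, hC₁, hddt⟩ := ddt K
  obtain ⟨C₂, hC₂, A₂, hcpd⟩ := cpd (n * 3) (n * 3)
  obtain ⟨N, hN⟩ : ∃ N : ℝ, N = (Ideal.absNorm (H48.T3.mS S) : ℝ) := ⟨_, rfl⟩
  have hN1 : 1 ≤ N := by
    rw [hN]
    exact_mod_cast (md_abs K S K (Module.finrank_self K)).2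
  have hC0 : 0 ≤ C := by linarith
  refine ⟨C * C ^ S.card * ((C₂ * (C₁ * C₁) ^ A₂) ^ (a + A) * (C₁ * N ^ 3 * N ^ 6) ^ A),
    A₂ * (a + A) + A, δ, ?_, hδ, hδ4, fun x y hne hncj Y hY => ?_⟩
  · refine one_le_mul_of_one_le_of_one_le (one_le_mul_of_one_le_of_one_le hC (one_le_pow₀ hC))
      (one_le_mul_of_one_le_of_one_le (one_le_pow₀ (one_le_mul_of_one_le_of_one_le hC₂
        (one_le_pow₀ (one_le_mul_of_one_le_of_one_le hC₁ hC₁)))) (one_le_pow₀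
          (one_le_mul_of_one_le_of_one_le (one_le_mul_of_one_le_of_one_le hC₁ (one_le_pow₀ hN1))
            (one_le_pow₀ hN1))))
  obtain ⟨e⟩ := hne
  obtain ⟨ρ, hρn, hρ⟩ := cr6_rho x y e hncj
  obtain ⟨E, i1, i2, i3, i4, i5, i6, i7, h6, h⟩ := cm6 QBar x.c.deg x.c.non e
  obtain ⟨ψ₁, hψ₁⟩ := rcn (K := K) (E := E) x.χ
  obtain ⟨ψ₂, hψ₂⟩ := rcn (K := K) (E := E) y.χ
  obtain ⟨ψ, hψ⟩ := rcml ψ₁ ψ₂
  have hψ' : ∀ I : Ideal (𝓞 E), ψ.χ I =
      x.χ.χ (Ideal.relNorm (𝓞 x.c.F) I) * y.χ.χ (Ideal.relNorm (𝓞 y.c.F) I) := by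
    intro I
    rw [hψ, hψ₁, hψ₂]
  have hnon : ψ.Non := non6 h x.c.deg h6 x.χ y.χ ⟨x.quad, x.triv⟩ ⟨y.quad, y.triv⟩ y.non ψ hψ'
  obtain ⟨B, hB1, hB⟩ := bad K E
  have hD1 := one_le_D x.c
  have hD2 := one_le_D y.c
  have hD1' : 0 ≤ x.c.D := by linarith
  have hD2' : 0 ≤ y.c.D := by linarith
  have hdd1 := one_le_dd x.c.F
  have hdd2 := one_le_dd y.c.F
  have hddE := one_le_dd E
  have hddE0 : 0 ≤ dd E := by linarith
  have hdd10 : 0 ≤ dd x.c.F := by linarith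
  have hg : ∀ l, |off S x.lp l * off S y.lp l| ≤ 9 := by
    intro l
    rw [abs_mul]
    have h1 := off_le x l
    have h2 := off_le y l
    have h3 := abs_nonneg (off S x.lp l)
    have h4 := abs_nonneg (off S y.lp l)
    nlinarith
  have h1 := hasm x.c.F E (tc_up hK x.c.deg) (tc_up hK h6) (mF S x.c.F) (md (H48.T3.mS S) E)
    (md_n0 K S x.c.F) (md_n0 K S E) ρ ψ hρn hnon
    (fun l => off S x.lp l * off S y.lp l) hg (S ∪ B) (by
      intro l hl _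
      rw [Finset.mem_union, not_or] at hl
      have h3 : off S x.lp l = x.lp l := if_neg hl.1
      have h4 : off S y.lp l = y.lp l := if_neg hl.1
      have hIT : IT QBar E l := (inr_iff E l).2 (hB l hl.2)
      have hu1 := (inr_iff x.c.F l).1 (it_down x.c.F hIT)
      have hu2 := (inr_iff y.c.F l).1 (it_down y.c.F hIT)
      rw [h3, h4, Complex.ofReal_mul, cbl_lp h2 x l hl.1 hu1, cbl_lp h2 y l hl.1 hu2]
      exact (loc6 h l hIT x.χ.χ y.χ.χ ψ.χ hψ' ρ.χ hρ).symm) Y hY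
  refine h1.trans (mul_le_mul_of_nonneg_right ?_ (Real.rpow_nonneg (by linarith) _))
  have hE : dd E ≤ C₂ * (C₁ * C₁) ^ A₂ * (x.c.D * y.c.D) ^ A₂ := by
    have h3 : dd E ≤ C₂ * (dd x.c.F * dd y.c.F) ^ A₂ :=
      hcpd x.c.F y.c.F E (tc_up hK x.c.deg) (tc_up hK y.c.deg) h.gen
    refine h3.trans ?_
    rw [mul_assoc, ← mul_pow]
    refine mul_le_mul_of_nonneg_left (pow_le_pow_left₀ (by positivity) ?_ _) (by linarith)
    calc dd x.c.F * dd y.c.F ≤ (C₁ * x.c.D) * (C₁ * y.c.D) :=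
          mul_le_mul (hddt x.c) (hddt y.c) (by linarith) (by positivity)
      _ = C₁ * C₁ * (x.c.D * y.c.D) := by ring
  have hF : dd x.c.F ≤ C₁ * (x.c.D * y.c.D) := by
    refine (hddt x.c).trans (mul_le_mul_of_nonneg_left ?_ (by linarith))
    nlinarith
  have h4 : C ^ (S ∪ B).card ≤ C ^ S.card * dd E ^ a := by
    calc C ^ (S ∪ B).card ≤ C ^ (S.card + B.card) :=
          pow_le_pow_right₀ hC (Finset.card_union_le _ _)
      _ = C ^ S.card * C ^ B.card := pow_add _ _ _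
      _ ≤ C ^ S.card * dd E ^ a := by
          refine mul_le_mul_of_nonneg_left ?_ (pow_nonneg hC0 _)
          calc C ^ B.card ≤ ((2 : ℝ) ^ a) ^ B.card := pow_le_pow_left₀ hC0 ha.le _
            _ = ((2 : ℝ) ^ B.card) ^ a := by rw [← pow_mul, ← pow_mul, mul_comm]
            _ ≤ dd E ^ a := pow_le_pow_left₀ (by positivity) hB1 _
  have h5 : (dd x.c.F * (Ideal.absNorm (mF S x.c.F) : ℝ) *
      (dd E * (Ideal.absNorm (md (H48.T3.mS S) E) : ℝ))) ^ A =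
      (dd x.c.F * (N ^ 3 * N ^ 6)) ^ A * dd E ^ A := by
    have h7 : (Ideal.absNorm (mF S x.c.F) : ℝ) = N ^ 3 := by
      rw [(md_abs K S x.c.F x.c.deg).1, hN]
      push_cast
      ring
    have h8 : (Ideal.absNorm (md (H48.T3.mS S) E) : ℝ) = N ^ 6 := by
      rw [(md_abs K S E h6).1, hN]
      push_cast
      ring
    rw [h7, h8, ← mul_pow]
    congr 1
    ring
  rw [h5]
  have hN0 : 0 ≤ N := by linarith
  have hC10 : 0 ≤ C₁ := by linarith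
  calc C * C ^ (S ∪ B).card * ((dd x.c.F * (N ^ 3 * N ^ 6)) ^ A * dd E ^ A)
      ≤ C * (C ^ S.card * dd E ^ a) * ((dd x.c.F * (N ^ 3 * N ^ 6)) ^ A * dd E ^ A) := by
        refine mul_le_mul_of_nonneg_right (mul_le_mul_of_nonneg_left h4 hC0) (by positivity)
    _ = C * C ^ S.card * ((dd x.c.F * (N ^ 3 * N ^ 6)) ^ A * dd E ^ (a + A)) := by
        rw [pow_add]
        ring
    _ ≤ C * C ^ S.card * ((C₁ * (x.c.D * y.c.D) * (N ^ 3 * N ^ 6)) ^ A *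
        (C₂ * (C₁ * C₁) ^ A₂ * (x.c.D * y.c.D) ^ A₂) ^ (a + A)) := by
        refine mul_le_mul_of_nonneg_left (mul_le_mul ?_ (pow_le_pow_left₀ hddE0 hE _)
          (by positivity) (by positivity)) (by positivity)
        refine pow_le_pow_left₀ (by positivity) ?_ _
        exact mul_le_mul_of_nonneg_right hF (by positivity)
    _ = C * C ^ S.card * ((C₂ * (C₁ * C₁) ^ A₂) ^ (a + A) * (C₁ * N ^ 3 * N ^ 6) ^ A) *
        (x.c.D * y.c.D) ^ (A₂ * (a + A) + A) := by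
        rw [mul_pow _ ((x.c.D * y.c.D) ^ A₂) (a + A), ← pow_mul, pow_add _ (A₂ * (a + A)) A,
          show C₁ * (x.c.D * y.c.D) * (N ^ 3 * N ^ 6) = (C₁ * N ^ 3 * N ^ 6) * (x.c.D * y.c.D) by
            ring, mul_pow _ (x.c.D * y.c.D) A]
        ring

end H1.SL
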