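import Pool.Agent.H1.SL.Orb
import Pool.Agent.H1.SL.Non
import Pool.Agent.H1.SL.Loc
import Pool.Agent.H1.SL.Ls1
import Pool.Agent.H1.LS4.Cpd
import Pool.Agent.H1.LS4.Bad
import Pool.Agent.H1.LS4.Nch

/-!
# [H1 SL CR9] The correlation of two characters over non isomorphic fields (90-130 lines)

Model: `cor_core`, `cor_diff` in `H1/LS4/Cor.lean`. `x`, `y` with `x.c.F`, `y.c.F` not isomorphic over `K`. `cm9 QBar x.c.deg y.c.deg hne` gives `E` of degree 9 with `h : Cm K QBar x.c.F y.c.F E univ`; `E` is totally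
complex of degree `9 n` (`tc_up hK`). `rcn x.χ`, `rcn y.χ` and `rcml` (`H1/LS4/Nch`) give `ψ : RC E (md (mS S) E)` with `ψ I = x.χ (relNorm I) * y.χ (relNorm I)`, `ψ.Non` by `non9`
(`QT (mS S) x.χ := ⟨x.quad, x.triv⟩`). `H57.LC.asm1 K (n * 9) (ics (n * 9) _)` with `g l = off S x.lp l * off S y.lp l` (`|g| ≤ 9` by `off_le`), `Bd = S ∪ B`, `B` from `bad K E` (`2 ^ B.card ≤ dd E`, `Unr K E l` outside `B`).
Local identity for `l ∉ Bd`: `inr_iff E l` (`H57/SL/Inr`) gives `IT QBar E l`, `it_down` gives `IT QBar x.c.F l`, `IT QBar y.c.F l`, `inr_iff` backwards `Unr` for both fields, `cbl_lp h2` for `x` and `y`: `(x.lp l : ℂ) = d1 K x.χ.χ l`; then `loc9`.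
(`off S x.lp l = x.lp l` as `l ∉ S`.) Constants: `C ^ (Bd.card) ≤ C ^ (S.card) * C ^ (B.card)`, `C ≤ 2 ^ a`: `C ^ (B.card) ≤ (dd E) ^ a`; `absNorm (md (mS S) E) = (absNorm (mS S)) ^ 9` (`md_abs`);
`dd E ≤ C₂ (dd x.c.F * dd y.c.F) ^ A₂` (`cpd (n * 3) (n * 3)`, `h.gen`), `dd x.c.F ≤ C₃ x.c.D` (`ddt K`), `x.c.D ≥ 1` (`one_le_D`), `dd ≥ 1` (`one_le_dd`).
-/

set_option autoImplicit false

open scoped NumberField Pointwise Classical
open IsDedekindDomain H63.MA NumberField H36.QA H57.LI H57.SL H1.LS4 H67.SX H38.ML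

noncomputable section

namespace H1.SL

theorem cr9 (K : IntermediateField ℚ QBar) [NumberField K] {n : ℕ} (hn : 0 < n) (hK : TC K n)
    (S : Finset (Pl K)) (h2 : ∀ v : Pl K, Above 2 v → v ∈ S) :
    ∃ (C : ℝ) (A : ℕ) (δ : ℝ), 1 ≤ C ∧ 0 < δ ∧ δ ≤ 1 / 4 ∧
      ∀ x y : AQ K S, IsEmpty (x.c.F ≃ₐ[K] y.c.F) → ∀ Y : ℝ, 1 ≤ Y →
        |∑ s ∈ (prK K).SF Y, pd (fun l => off S x.lp l * off S y.lp l) s| ≤
          C * (x.c.D * y.c.D) ^ A * Y ^ (1 - δ) := by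
  obtain ⟨C, A, δ, hC, hδ, hδ4, hasm⟩ := H57.LC.asm1 K (n * 9) (ics (n * 9) (by omega))
  obtain ⟨a, ha⟩ := pow_unbounded_of_one_lt C (one_lt_two : (1 : ℝ) < 2)
  obtain ⟨C₁, hC₁, hddt⟩ := ddt K
  obtain ⟨C₂, hC₂, A₂, hcpd⟩ := cpd (n * 3) (n * 3)
  obtain ⟨N, hN⟩ : ∃ N : ℝ, N = (Ideal.absNorm (H48.T3.mS S) : ℝ) := ⟨_, rfl⟩
  have hN1 : 1 ≤ N := by
    rw [hN]
    exact_mod_cast (md_abs K S K (Module.finrank_self K)).2
  have hC0 : 0 ≤ C := by linarith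
  refine ⟨C * C ^ S.card * ((C₂ * (C₁ * C₁) ^ A₂) ^ (a + A) * (N ^ 9) ^ A), A₂ * (a + A), δ, ?_, hδ,
    hδ4, fun x y hne Y hY => ?_⟩
  · refine one_le_mul_of_one_le_of_one_le (one_le_mul_of_one_le_of_one_le hC (one_le_pow₀ hC))
      (one_le_mul_of_one_le_of_one_le (one_le_pow₀ (one_le_mul_of_one_le_of_one_le hC₂
        (one_le_pow₀ (one_le_mul_of_one_le_of_one_le hC₁ hC₁)))) (one_le_pow₀ (one_le_pow₀ hN1)))
  obtain ⟨E, i1, i2, i3, i4, i5, i6, i7, h9, h⟩ := cm9 QBar x.c.deg y.c.deg hne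
  obtain ⟨ψ₁, hψ₁⟩ := rcn (K := K) (E := E) x.χ
  obtain ⟨ψ₂, hψ₂⟩ := rcn (K := K) (E := E) y.χ
  obtain ⟨ψ, hψ⟩ := rcml ψ₁ ψ₂
  have hψ' : ∀ I : Ideal (𝓞 E), ψ.χ I =
      x.χ.χ (Ideal.relNorm (𝓞 x.c.F) I) * y.χ.χ (Ideal.relNorm (𝓞 y.c.F) I) := by
    intro I
    rw [hψ, hψ₁, hψ₂]
  have hnon : ψ.Non := non9 h x.c.deg h9 x.χ y.χ ⟨x.quad, x.triv⟩ ⟨y.quad, y.triv⟩ x.non ψ hψ'
  obtain ⟨B, hB1, hB⟩ := bad K E
  have hD1 := one_le_D x.c
  have hD2 := one_le_D y.c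
  have hD1' : 0 ≤ x.c.D := by linarith
  have hD2' : 0 ≤ y.c.D := by linarith
  have hdd1 := one_le_dd x.c.F
  have hdd2 := one_le_dd y.c.F
  have hddE := one_le_dd E
  have hddE0 : 0 ≤ dd E := by linarith
  have hg : ∀ l, |off S x.lp l * off S y.lp l| ≤ 9 := by
    intro l
    rw [abs_mul]
    have h1 := off_le x l
    have h2 := off_le y l
    have h3 := abs_nonneg (off S x.lp l)
    have h4 := abs_nonneg (off S y.lp l)
    nlinarith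
  have h1 := hasm E (tc_up hK h9) (md (H48.T3.mS S) E) (md_n0 K S E) ψ hnon
    (fun l => off S x.lp l * off S y.lp l) hg (S ∪ B) (by
      intro l hl
      rw [Finset.mem_union, not_or] at hl
      have h3 : off S x.lp l = x.lp l := if_neg hl.1
      have h4 : off S y.lp l = y.lp l := if_neg hl.1
      have hIT : IT QBar E l := (inr_iff E l).2 (hB l hl.2)
      have hu1 := (inr_iff x.c.F l).1 (it_down x.c.F hIT)
      have hu2 := (inr_iff y.c.F l).1 (it_down y.c.F hIT)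
      rw [h3, h4, Complex.ofReal_mul, cbl_lp h2 x l hl.1 hu1, cbl_lp h2 y l hl.1 hu2]
      exact (loc9 h l hIT x.χ.χ y.χ.χ ψ.χ hψ').symm) Y hY
  refine h1.trans (mul_le_mul_of_nonneg_right ?_ (Real.rpow_nonneg (by linarith) _))
  have hE : dd E ≤ C₂ * (C₁ * C₁) ^ A₂ * (x.c.D * y.c.D) ^ A₂ := by
    have h3 : dd E ≤ C₂ * (dd x.c.F * dd y.c.F) ^ A₂ :=
      hcpd x.c.F y.c.F E (tc_up hK x.c.deg) (tc_up hK y.c.deg) h.gen
    refine h3.trans ?_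
    rw [mul_assoc, ← mul_pow]
    refine mul_le_mul_of_nonneg_left (pow_le_pow_left₀ (by positivity) ?_ _) (by linarith)
    calc dd x.c.F * dd y.c.F ≤ (C₁ * x.c.D) * (C₁ * y.c.D) :=
          mul_le_mul (hddt x.c) (hddt y.c) (by linarith) (by positivity)
      _ = C₁ * C₁ * (x.c.D * y.c.D) := by ring
  have h4 : C ^ (S ∪ B).card ≤ C ^ S.card * dd E ^ a := by
    calc C ^ (S ∪ B).card ≤ C ^ (S.card + B.card) :=
          pow_le_pow_right₀ hC (Finset.card_union_le _ _)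
      _ = C ^ S.card * C ^ B.card := pow_add _ _ _
      _ ≤ C ^ S.card * dd E ^ a := by
          refine mul_le_mul_of_nonneg_left ?_ (pow_nonneg hC0 _)
          calc C ^ B.card ≤ ((2 : ℝ) ^ a) ^ B.card := pow_le_pow_left₀ hC0 ha.le _
            _ = ((2 : ℝ) ^ B.card) ^ a := by rw [← pow_mul, ← pow_mul, mul_comm]
            _ ≤ dd E ^ a := pow_le_pow_left₀ (by positivity) hB1 _
  have h5 : (dd E * (Ideal.absNorm (md (H48.T3.mS S) E) : ℝ)) ^ A = dd E ^ A * (N ^ 9) ^ A := by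
    rw [(md_abs K S E h9).1, hN, mul_pow]
    push_cast
    ring
  rw [h5]
  calc C * C ^ (S ∪ B).card * (dd E ^ A * (N ^ 9) ^ A)
      ≤ C * (C ^ S.card * dd E ^ a) * (dd E ^ A * (N ^ 9) ^ A) := by
        refine mul_le_mul_of_nonneg_right (mul_le_mul_of_nonneg_left h4 hC0) (by positivity)
    _ = C * C ^ S.card * (N ^ 9) ^ A * dd E ^ (a + A) := by
        rw [pow_add]
        ring
    _ ≤ C * C ^ S.card * (N ^ 9) ^ A * (C₂ * (C₁ * C₁) ^ A₂ * (x.c.D * y.c.D) ^ A₂) ^ (a + A) := by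
        refine mul_le_mul_of_nonneg_left (pow_le_pow_left₀ hddE0 hE _) (by positivity)
    _ = C * C ^ S.card * ((C₂ * (C₁ * C₁) ^ A₂) ^ (a + A) * (N ^ 9) ^ A) *
        (x.c.D * y.c.D) ^ (A₂ * (a + A)) := by
        rw [mul_pow _ ((x.c.D * y.c.D) ^ A₂) (a + A), ← pow_mul]
        ring

end H1.SL
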