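import Pool.Agent.H57.SL.Def

/-!
# H1 SL DF: composita of two extensions of `K` (definitions, complete)

`K` number field, `Ω` an algebraic closure, `F`, `F'`, `E` finite extensions, `F → E`, `F' → E`.
* `rs F j`: the restriction to `F` of an embedding `j : E → Ω`.
* `Cm K Ω F F' E T`: `E` is generated by `F` and `F'`, and the pairs `(rs F j, rs F' j)` are the pairs in `T`. So `j ↦ (rs F j, rs F' j)` is a
  bijection of the embeddings of `E` with `T`.
* `T6 e`: the pairs `(ι, ι')` with `ι' ∘ e ≠ ι` (`e : F ≃ F'`). `E` has degree 9 for `T = univ` and degree 6 for `T = T6 e` (`F`, `F'` cubic).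
* `pe_rs`: the prime of `F` below `Q.P l` via `rs F j` is the prime below `pe E Q l j`.
-/

set_option autoImplicit false

open scoped NumberField Pointwise Classical
open IsDedekindDomain H63.MA NumberField H57.LI H57.SL H1.LS4

noncomputable section

namespace H1.SL

section gen

variable {K Ω : Type} [Field K] [Field Ω] [Algebra K Ω] (F : Type) {E : Type} [Field F] [Field E]
  [Algebra K F] [Algebra K E] [Algebra F E] [IsScalarTower K F E]

/-- the restriction of an embedding -/
def rs (j : E →ₐ[K] Ω) : F →ₐ[K] Ω := j.comp (IsScalarTower.toAlgHom K F E)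

theorem rs_apply (j : E →ₐ[K] Ω) (x : F) : rs F j x = j (algebraMap F E x) := rfl

theorem rs_ac (σ : Gal(Ω/K)) (j : E →ₐ[K] Ω) : rs F (ac σ j) = ac σ (rs F j) := rfl

end gen

/-- `E` is a compositum of `F` and `F'` and `T` the set of the pairs of embeddings which extend to `E` -/
structure Cm (K Ω F F' E : Type) [Field K] [Field Ω] [Field F] [Field F'] [Field E] [Algebra K Ω]
    [Algebra K F] [Algebra K F'] [Algebra K E] [Algebra F E] [Algebra F' E]
    [IsScalarTower K F E] [IsScalarTower K F' E]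
    (T : Set ((F →ₐ[K] Ω) × (F' →ₐ[K] Ω))) : Prop where
  gen : Subring.closure (Set.range (algebraMap F E) ∪ Set.range (algebraMap F' E)) = ⊤
  ext : ∀ p : (F →ₐ[K] Ω) × (F' →ₐ[K] Ω), p ∈ T ↔ ∃ j : E →ₐ[K] Ω, rs F j = p.1 ∧ rs F' j = p.2

/-- the pairs which do not agree on `F` -/
def T6 {K Ω F F' : Type} [Field K] [Field Ω] [Field F] [Field F'] [Algebra K Ω] [Algebra K F]
    [Algebra K F'] (e : F ≃ₐ[K] F') : Set ((F →ₐ[K] Ω) × (F' →ₐ[K] Ω)) :=
  {p | p.2.comp (e : F →ₐ[K] F') ≠ p.1}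

section basic

variable {K Ω F F' E : Type} [Field K] [Field Ω] [Field F] [Field F'] [Field E] [Algebra K Ω]
    [Algebra K F] [Algebra K F'] [Algebra K E] [Algebra F E] [Algebra F' E]
    [IsScalarTower K F E] [IsScalarTower K F' E] {T : Set ((F →ₐ[K] Ω) × (F' →ₐ[K] Ω))}

/-- an embedding is determined by its restrictions -/
theorem Cm.inj (h : Cm K Ω F F' E T) {j j' : E →ₐ[K] Ω} (h1 : rs F j = rs F j')
    (h2 : rs F' j = rs F' j') : j = j' := by
  have h3 : (⊤ : Subring E) ≤ (j : E →+* Ω).eqLocus (j' : E →+* Ω) := by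
    rw [← h.gen, Subring.closure_le]
    rintro _ (⟨y, rfl⟩ | ⟨y, rfl⟩)
    · exact DFunLike.congr_fun h1 y
    · exact DFunLike.congr_fun h2 y
  exact AlgHom.ext fun x => h3 (Subring.mem_top x)

/-- the bijection of the embeddings with the pairs -/
theorem Cm.bij (h : Cm K Ω F F' E T) :
    Set.BijOn (fun j : E →ₐ[K] Ω => (rs F j, rs F' j)) Set.univ T := by
  refine ⟨fun j _ => (h.ext _).2 ⟨j, rfl, rfl⟩, fun j _ j' _ hj => ?_, fun p hp => ?_⟩
  · exact h.inj (congrArg Prod.fst hj) (congrArg Prod.snd hj)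
  · obtain ⟨j, h1, h2⟩ := (h.ext p).1 hp
    exact ⟨j, trivial, Prod.ext h1 h2⟩

/-- the bijection of the fixed embeddings with the fixed pairs -/
theorem Cm.bijf (h : Cm K Ω F F' E T) (σ : Gal(Ω/K)) :
    Set.BijOn (fun j : E →ₐ[K] Ω => (rs F j, rs F' j)) (fx E σ)
      {p | p ∈ T ∧ p.1 ∈ fx F σ ∧ p.2 ∈ fx F' σ} := by
  refine ⟨fun j hj => ⟨(h.ext _).2 ⟨j, rfl, rfl⟩, ?_, ?_⟩, fun j _ j' _ hj => ?_, fun p hp => ?_⟩
  · exact congrArg (rs F) hj
  · exact congrArg (rs F') hj
  · exact h.inj (congrArg Prod.fst hj) (congrArg Prod.snd hj)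
  · obtain ⟨j, h1, h2⟩ := (h.ext p).1 hp.1
    refine ⟨j, ?_, Prod.ext h1 h2⟩
    apply h.inj
    · rw [rs_ac, h1]
      exact hp.2.1
    · rw [rs_ac, h2]
      exact hp.2.2

end basic

section primes

variable {K Ω : Type} [Field K] [NumberField K] [Field Ω] [Algebra K Ω] (F : Type) {E : Type}
  [Field F] [NumberField F] [Field E] [NumberField E]
  [Algebra K F] [Algebra K E] [Algebra F E] [IsScalarTower K F E]

theorem pe_rs (Q : DP K Ω) (l : Pl K) (j : E →ₐ[K] Ω) :
    (pe F Q l (rs F j)).asIdeal = (pe E Q l j).asIdeal.comap (algebraMap (𝓞 F) (𝓞 E)) := rfl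

end primes

/-- the inertia groups act trivially on the embeddings of a subfield -/
theorem it_down {K Ω : Type} [Field K] [NumberField K] [Field Ω] [Algebra K Ω]
    [IsAlgClosure K Ω] (F : Type) {E : Type}
    [Field F] [NumberField F] [Field E] [NumberField E]
    [Algebra K F] [Algebra K E] [Algebra F E] [IsScalarTower K F E] {l : Pl K} (h : IT Ω E l) :
    IT Ω F l := by
  intro P hP hPl τ hτ ι
  have : IsAlgClosed Ω := IsAlgClosure.isAlgClosed K
  have : Algebra.IsAlgebraic K E := dic_alg E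
  have h0 : ∃ j : E →ₐ[K] Ω, rs F j = ι := by
    let _ : Algebra F Ω := (ι : F →+* Ω).toAlgebra
    have : IsScalarTower K F Ω := IsScalarTower.of_algebraMap_eq fun x => (ι.commutes x).symm
    have : Algebra.IsAlgebraic F E := Algebra.IsAlgebraic.tower_top (K := K) F
    let j : E →ₐ[F] Ω := IsAlgClosed.lift
    refine ⟨j.restrictScalars K, AlgHom.ext fun x => ?_⟩
    exact j.commutes x
  obtain ⟨j, rfl⟩ := h0
  rw [← rs_ac, h P hP hPl τ hτ j]

end H1.SL
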