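import Pool.Agent.H1.SL.Nel

/-!
# [H1 SL IDN] Norms of ideals in a compositum (80-120 lines)

`md I E = I.map (algebraMap (𝓞 F) (𝓞 E))`. Let `h₀ > 0` be the class number of `F`: `I ^ h₀` is principal, `I ^ h₀ = (a)`, `a ≠ 0` (search Mathlib: `ClassGroup.mk0`, `ClassGroup.mk0_eq_one_iff`,
`pow_card_eq_one`; see also `H57/TLS` or `H1/LS4/Sch` for the use). All maps `md`, `Ideal.relNorm`, `gm e` are multiplicative (`Ideal.map_pow`, `map_pow`, `gm_mul`, so powers) and on principal ideals: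
`md (a) E = (algebraMap a)` (`Ideal.map_span`), `relNorm (b) = (intNorm b)` (`Ideal.relNorm_singleton`), `gm e (a) = (e a)` (see `rtw` in `H1/LS4/Nch.lean`). The element identities `nel9`, `nel6`,
in the ring of integers: the image of `Algebra.intNorm (𝓞 F') (𝓞 E) b` in `F'` is `Algebra.norm F' (b : E)` (`Algebra.algebraMap_intNorm (A := 𝓞 F') (K := F') (L := E) (B := 𝓞 E)`,
see `nch_norm` in `H1/LS4/Nch.lean`). So both sides of the claim have equal `h₀`-th powers, and for ideals of a Dedekind domain `A ^ h₀ = B ^ h₀` gives `A ∣ B` and `B ∣ A`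
(`UniqueFactorizationMonoid.pow_dvd_pow_iff_dvd`), so `A = B` (`dvd_antisymm`).
-/

set_option autoImplicit false

open scoped NumberField Pointwise Classical
open IsDedekindDomain H63.MA NumberField H57.LI H57.SL H1.LS4

noncomputable section

namespace H1.SL

variable {K Ω F F' E : Type} [Field K] [NumberField K] [Field Ω] [Algebra K Ω]
    [IsAlgClosure K Ω] [Field F] [NumberField F] [Field F'] [NumberField F'] [Algebra K F]
    [Algebra K F'] [Field E] [NumberField E] [Algebra K E] [Algebra F E] [Algebra F' E]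
    [IsScalarTower K F E] [IsScalarTower K F' E]

private theorem idn_cl {F : Type} [Field F] [NumberField F] (I : Ideal (𝓞 F)) (hI : I ≠ ⊥) :
    ∃ n : ℕ, n ≠ 0 ∧ ∃ a : 𝓞 F, I ^ n = Ideal.span {a} := by
  have hI' : I ∈ nonZeroDivisors (Ideal (𝓞 F)) := mem_nonZeroDivisors_iff_ne_zero.2 hI
  obtain ⟨n, hn, h1⟩ := isOfFinOrder_iff_pow_eq_one.1
    (isOfFinOrder_of_finite (ClassGroup.mk0 (⟨I, hI'⟩ : nonZeroDivisors (Ideal (𝓞 F)))))
  refine ⟨n, hn.ne', ?_⟩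
  have hIn : I ^ n ∈ nonZeroDivisors (Ideal (𝓞 F)) := pow_mem hI' n
  have h3 : (⟨I, hI'⟩ : nonZeroDivisors (Ideal (𝓞 F))) ^ n = ⟨I ^ n, hIn⟩ := rfl
  rw [← map_pow, h3] at h1
  have h2 := (ClassGroup.mk0_eq_one_iff hIn).1 h1
  obtain ⟨a, ha⟩ := h2.principal
  exact ⟨a, ha⟩

private theorem idn_pow {A B : Ideal (𝓞 F')} {n : ℕ} (hn : n ≠ 0) (h : A ^ n = B ^ n) : A = B :=
  dvd_antisymm ((UniqueFactorizationMonoid.pow_dvd_pow_iff_dvd hn).1 (dvd_of_eq h))
    ((UniqueFactorizationMonoid.pow_dvd_pow_iff_dvd hn).1 (dvd_of_eq h.symm))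

private theorem idn_md (a : 𝓞 F) : md (Ideal.span {a}) E =
    Ideal.span {algebraMap (𝓞 F) (𝓞 E) a} := by
  unfold md
  rw [Ideal.map_span, Set.image_singleton]

private theorem idn_mdpow (I : Ideal (𝓞 F)) (n : ℕ) : md (I ^ n) E = md I E ^ n :=
  Ideal.map_pow _ I n

private theorem idn_val (a : 𝓞 F) :
    algebraMap (𝓞 F') F' (Algebra.intNorm (𝓞 F') (𝓞 E) (algebraMap (𝓞 F) (𝓞 E) a)) =
      Algebra.norm F' (algebraMap F E (a : F)) := by
  rw [Algebra.algebraMap_intNorm (A := 𝓞 F') (K := F') (L := E) (B := 𝓞 E)]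
  rfl

private theorem idn_val' (a : 𝓞 F) :
    algebraMap (𝓞 F') F' (algebraMap (𝓞 K) (𝓞 F') (Algebra.intNorm (𝓞 K) (𝓞 F) a)) =
      algebraMap K F' (Algebra.norm K (a : F)) := by
  rw [← Algebra.algebraMap_intNorm (A := 𝓞 K) (K := K) (L := F) (B := 𝓞 F)]
  rfl

theorem idn9 (h : Cm K Ω F F' E Set.univ) (I : Ideal (𝓞 F)) (hI : I ≠ ⊥) :
    Ideal.relNorm (𝓞 F') (md I E) = md (Ideal.relNorm (𝓞 K) I) F' := by
  obtain ⟨n, hn, a, ha⟩ := idn_cl I hI
  refine idn_pow hn ?_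
  rw [← map_pow, ← idn_mdpow, ← idn_mdpow, ← map_pow, ha, idn_md, Ideal.relNorm_singleton,
    Ideal.relNorm_singleton]
  have h1 : Algebra.intNorm (𝓞 F') (𝓞 E) (algebraMap (𝓞 F) (𝓞 E) a) =
      algebraMap (𝓞 K) (𝓞 F') (Algebra.intNorm (𝓞 K) (𝓞 F) a) := by
    apply RingOfIntegers.coe_injective
    rw [idn_val (F' := F') (E := E), idn_val', nel9 h]
  rw [h1]
  exact (idn_md (F := K) (E := F') _).symm

theorem idn6 {e : F ≃ₐ[K] F'} (h : Cm K Ω F F' E (T6 e)) (I : Ideal (𝓞 F)) (hI : I ≠ ⊥) :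
    Ideal.relNorm (𝓞 F') (md I E) * gm e I = md (Ideal.relNorm (𝓞 K) I) F' := by
  obtain ⟨n, hn, a, ha⟩ := idn_cl I hI
  refine idn_pow hn ?_
  have hg : gm e I ^ n = Ideal.span {(RingOfIntegers.mapRingEquiv e.toRingEquiv : 𝓞 F ≃+* 𝓞 F') a} := by
    have h1 : gm e I ^ n = gm e (I ^ n) := (Ideal.map_pow _ I n).symm
    rw [h1, ha]
    unfold gm
    rw [Ideal.map_span, Set.image_singleton]
  rw [mul_pow, hg, ← map_pow, ← idn_mdpow, ← idn_mdpow, ← map_pow, ha, idn_md,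
    Ideal.relNorm_singleton, Ideal.relNorm_singleton, Ideal.span_singleton_mul_span_singleton]
  have h1 : Algebra.intNorm (𝓞 F') (𝓞 E) (algebraMap (𝓞 F) (𝓞 E) a) *
      (RingOfIntegers.mapRingEquiv e.toRingEquiv : 𝓞 F ≃+* 𝓞 F') a =
      algebraMap (𝓞 K) (𝓞 F') (Algebra.intNorm (𝓞 K) (𝓞 F) a) := by
    apply RingOfIntegers.coe_injective
    rw [map_mul, idn_val (F' := F') (E := E), idn_val', ← nel6 h]
    rfl
  rw [h1]
  exact (idn_md (F := K) (E := F') _).symm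

end H1.SL
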