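import Pool.Agent.H1.SL.Df

/-!
# [H1 SL NEL] Norms of elements in a compositum (60-90 lines)

`nel`: make `Ω` an algebra over `F'` by `ι'` (`(ι' : F' →+* Ω).toAlgebra`; `IsScalarTower K F' Ω`). `E / F'` is finite and separable (characteristic 0). By
`Algebra.norm_eq_prod_embeddings F' Ω (algebraMap F E x)` the left side is `∏ j : E →ₐ[F'] Ω, j (algebraMap F E x)`. The `F'`-embeddings `j : E → Ω` are the `K`-embeddings (`AlgHom.restrictScalars K`) with
`rs F' j = ι'` (conversely such a `K`-embedding commutes with `algebraMap F' `). The map `j ↦ rs F j` is a bijection of them with `{ι | (ι, ι') ∈ T}` (injective by `Cm.inj`,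
values in the set and surjective by `h.ext`), and `j (algebraMap F E x) = (rs F j) x`. Convert with `finprod_mem_eq_of_bijOn` / `finprod_eq_prod_of_fintype`.

`nel9`: apply `nel` for an embedding `ι'` of `F'` (it exists: `IsAlgClosed.lift`, `dic_alg`; `ι'` is injective): the right side is `∏ᶠ ι : F →ₐ[K] Ω, ι x = algebraMap K Ω (Algebra.norm K x)`
(`Algebra.norm_eq_prod_embeddings K Ω x`) `= ι' (algebraMap K F' (norm x))`.

`nel6`: in the same way, `{ι | (ι, ι') ∈ T6 e}` are all `ι` except `ι' ∘ e`, and `ι' (e x) = (ι' ∘ e) x`: the product with the missing factor is the product over all `ι`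
(`Finset.prod_erase_mul`/`Finset.mul_prod_erase` after conversion to `Finset.univ.erase`).
-/

set_option autoImplicit false

open scoped NumberField Pointwise Classical
open IsDedekindDomain H63.MA NumberField H57.LI H57.SL H1.LS4

noncomputable section

namespace H1.SL

variable {K Ω F F' E : Type} [Field K] [NumberField K] [Field Ω] [Algebra K Ω]
    [IsAlgClosure K Ω] [Field F] [NumberField F] [Field F'] [NumberField F'] [Algebra K F]
    [Algebra K F'] [Field E] [NumberField E] [Algebra K E] [Algebra F E] [Algebra F' E]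
    [IsScalarTower K F E] [IsScalarTower K F' E]

theorem nel {T : Set ((F →ₐ[K] Ω) × (F' →ₐ[K] Ω))} (h : Cm K Ω F F' E T) (x : F)
    (ι' : F' →ₐ[K] Ω) : ι' (Algebra.norm F' (algebraMap F E x)) =
      ∏ᶠ ι ∈ {ι : F →ₐ[K] Ω | (ι, ι') ∈ T}, ι x := by
  have : IsAlgClosed Ω := IsAlgClosure.isAlgClosed K
  let _ : Algebra F' Ω := (ι' : F' →+* Ω).toAlgebra
  have : IsScalarTower K F' Ω := IsScalarTower.of_algebraMap_eq fun x => (ι'.commutes x).symm
  have : FiniteDimensional F' E := Module.Finite.of_restrictScalars_finite ℚ F' E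
  have h1 := Algebra.norm_eq_prod_embeddings F' Ω (algebraMap F E x)
  have h2 : ι' (Algebra.norm F' (algebraMap F E x)) =
      algebraMap F' Ω (Algebra.norm F' (algebraMap F E x)) := rfl
  rw [h2, h1, ← finprod_eq_prod_of_fintype, ← finprod_mem_univ]
  refine finprod_mem_eq_of_bijOn (fun j : E →ₐ[F'] Ω => rs F (j.restrictScalars K))
    ⟨?_, ?_, ?_⟩ ?_
  · intro j _
    refine (h.ext _).2 ⟨j.restrictScalars K, rfl, AlgHom.ext fun y => ?_⟩
    exact j.commutes y
  · intro j _ j' _ hj
    have h3 : rs F' (j.restrictScalars K) = rs F' (j'.restrictScalars K) :=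
      AlgHom.ext fun y => (j.commutes y).trans (j'.commutes y).symm
    have h4 := h.inj hj h3
    exact AlgHom.ext fun y => DFunLike.congr_fun h4 y
  · intro ι hι
    obtain ⟨j, hj1, hj2⟩ := (h.ext _).1 hι
    let j' : E →ₐ[F'] Ω :=
      { (j : E →+* Ω) with commutes' := fun y => DFunLike.congr_fun hj2 y }
    refine ⟨j', trivial, ?_⟩
    have h5 : ι = rs F j := hj1.symm
    rw [h5]
    exact AlgHom.ext fun y => rfl
  · intro j _
    rfl

private theorem ex_emb (F' : Type) [Field F'] [NumberField F'] [Algebra K F'] :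
    Nonempty (F' →ₐ[K] Ω) := by
  have : IsAlgClosed Ω := IsAlgClosure.isAlgClosed K
  have : Algebra.IsAlgebraic K F' := dic_alg F'
  exact ⟨IsAlgClosed.lift⟩

private theorem nm_all (x : F) :
    algebraMap K Ω (Algebra.norm K x) = ∏ᶠ ι : F →ₐ[K] Ω, ι x := by
  have : IsAlgClosed Ω := IsAlgClosure.isAlgClosed K
  have : FiniteDimensional K F := Module.Finite.of_restrictScalars_finite ℚ K F
  rw [Algebra.norm_eq_prod_embeddings K Ω x, finprod_eq_prod_of_fintype]

theorem nel9 (h : Cm K Ω F F' E Set.univ) (x : F) :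
    Algebra.norm F' (algebraMap F E x) = algebraMap K F' (Algebra.norm K x) := by
  obtain ⟨ι'⟩ : Nonempty (F' →ₐ[K] Ω) := ex_emb F'
  apply ι'.toRingHom.injective
  change ι' _ = ι' _
  rw [nel h x ι', ι'.commutes, nm_all]
  have h1 : {ι : F →ₐ[K] Ω | (ι, ι') ∈ (Set.univ : Set ((F →ₐ[K] Ω) × (F' →ₐ[K] Ω)))} =
      Set.univ := by
    ext ι
    simp
  rw [h1, finprod_mem_univ]

theorem nel6 {e : F ≃ₐ[K] F'} (h : Cm K Ω F F' E (T6 e)) (x : F) :
    Algebra.norm F' (algebraMap F E x) * e x = algebraMap K F' (Algebra.norm K x) := by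
  obtain ⟨ι'⟩ : Nonempty (F' →ₐ[K] Ω) := ex_emb F'
  apply ι'.toRingHom.injective
  change ι' _ = ι' _
  have : FiniteDimensional K F := Module.Finite.of_restrictScalars_finite ℚ K F
  let ι0 : F →ₐ[K] Ω := ι'.comp (e : F →ₐ[K] F')
  have h1 : {ι : F →ₐ[K] Ω | (ι, ι') ∈ T6 e} =
      ((Finset.univ.erase ι0 : Finset (F →ₐ[K] Ω)) : Set (F →ₐ[K] Ω)) := by
    ext ι
    simp only [T6, Set.mem_ofPred_eq, Finset.coe_erase, Finset.coe_univ, Set.mem_sdiff,
      Set.mem_univ, true_and, Set.mem_singleton_iff]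
    exact ⟨fun h h2 => h h2.symm, fun h h2 => h h2.symm⟩
  rw [map_mul, nel h x ι', ι'.commutes, nm_all, h1, finprod_mem_coe_finset,
    finprod_eq_prod_of_fintype]
  have h2 : ι' (e x) = ι0 x := rfl
  rw [h2, Finset.prod_erase_mul _ _ (Finset.mem_univ ι0)]

end H1.SL
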