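import Pool.Agent.H1.SL.Df

/-!
# [H1 SL ORA] The compositum which belongs to a pair of embeddings (80-120 lines)

Let `ι : F → Ω`, `ι' : F' → Ω` be embeddings over `K`. `E = ↥(ι.fieldRange ⊔ ι'.fieldRange)` (intermediate field of `Ω / K`), finite dimensional
over `K` (`IntermediateField.finiteDimensional_sup`), so a number field (`NumberField.of_module_finite`). The algebra structures `F → E`, `F' → E` are the ring homs
`x ↦ ⟨ι x, _⟩`, `x ↦ ⟨ι' x, _⟩` (`ι.codRestrict`-like, or `(IntermediateField.inclusion le_sup_left).comp ι.rangeRestrict`; `.toAlgebra`; for `F = F'` as types this gives two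
different instances, so build the existential with explicit instances, do not use `letI` with both in scope of one type; `F`, `F'` are variables here, so there is no clash).
The scalar towers hold because `ι`, `ι'` are `K`-linear (`IsScalarTower.of_algebraMap_eq`). Let `v : E →ₐ[K] Ω` be the inclusion; `rs F v = ι`, `rs F' v = ι'`.
* `gen`: `(F₁ ⊔ F₂).toSubalgebra = F₁.toSubalgebra ⊔ F₂.toSubalgebra` (`IntermediateField.sup_toSubalgebra_of_isAlgebraic_left` or similar), the elements are in the subring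
generated by `F₁` and `F₂` (`Algebra.adjoin_induction`); pass from `Ω` to the subtype. This is done in `cpf` in `H1/LS4/Cpf.lean` for two intermediate fields: copy.
* `ext`: every `j : E →ₐ[K] Ω` is `ac σ v` for some `σ` (`emb_tr E v j`, file `H57/SL/Dic`), so `(rs F j, rs F' j) = (ac σ ι, ac σ ι')` (`rs_ac`) is in `Pb ι ι'`. Conversely
`(ac σ ι, ac σ ι')` is the pair of the restrictions of `ac σ v`.
* degree: `j ↦ (rs F j, rs F' j)` is a bijection of all `j` with `Pb ι ι'` (`Cm.bij`), so `(Pb ι ι').ncard` is the number of the embeddings `E →ₐ[K] Ω`, which is `[E : K]`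
(`AlgHom.card K E Ω`, `Ω` algebraically closed, characteristic 0: `IsAlgClosure.isAlgClosed K`; `Set.BijOn.ncard_eq` or `Set.ncard_congr`, `Set.ncard_univ`, `Nat.card_eq_fintype_card`).
-/

set_option autoImplicit false

open scoped NumberField Pointwise Classical
open IsDedekindDomain H63.MA NumberField H57.LI H57.SL H1.LS4

noncomputable section

namespace H1.SL

theorem ora {K Ω F F' : Type} [Field K] [NumberField K] [Field Ω] [Algebra K Ω]
    [IsAlgClosure K Ω] [Field F] [NumberField F] [Field F'] [NumberField F'] [Algebra K F]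
    [Algebra K F'] (ι : F →ₐ[K] Ω) (ι' : F' →ₐ[K] Ω) :
    ∃ (E : Type) (_ : Field E) (_ : NumberField E) (_ : Algebra K E) (_ : Algebra F E)
      (_ : Algebra F' E) (_ : IsScalarTower K F E) (_ : IsScalarTower K F' E),
      Module.finrank K E = (Pb ι ι').ncard ∧ Cm K Ω F F' E (Pb ι ι') := by
  have hac : IsAlgClosed Ω := IsAlgClosure.isAlgClosed K
  have hfF : FiniteDimensional K F := Module.Finite.of_restrictScalars_finite ℚ K F
  have hfF' : FiniteDimensional K F' := Module.Finite.of_restrictScalars_finite ℚ K F'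
  have hf1 : FiniteDimensional K ι.fieldRange :=
    (AlgEquiv.ofInjectiveField ι).toLinearEquiv.finiteDimensional
  have hf2 : FiniteDimensional K ι'.fieldRange :=
    (AlgEquiv.ofInjectiveField ι').toLinearEquiv.finiteDimensional
  have hfE : FiniteDimensional K ↥(ι.fieldRange ⊔ ι'.fieldRange) :=
    IntermediateField.finiteDimensional_sup _ _
  have hNE : NumberField ↥(ι.fieldRange ⊔ ι'.fieldRange) := NumberField.of_module_finite K _
  let e1 : F ≃ₐ[K] ι.fieldRange := AlgEquiv.ofInjectiveField ι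
  let e2 : F' ≃ₐ[K] ι'.fieldRange := AlgEquiv.ofInjectiveField ι'
  let i1 : F →ₐ[K] ↥(ι.fieldRange ⊔ ι'.fieldRange) :=
    (IntermediateField.inclusion (le_sup_left : ι.fieldRange ≤ ι.fieldRange ⊔ ι'.fieldRange)).comp
      (e1 : F →ₐ[K] ι.fieldRange)
  let i2 : F' →ₐ[K] ↥(ι.fieldRange ⊔ ι'.fieldRange) :=
    (IntermediateField.inclusion (le_sup_right : ι'.fieldRange ≤ ι.fieldRange ⊔ ι'.fieldRange)).comp
      (e2 : F' →ₐ[K] ι'.fieldRange)
  have hi1 : ∀ x, ((i1 x : ↥(ι.fieldRange ⊔ ι'.fieldRange)) : Ω) = ι x := fun x => rfl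
  have hi2 : ∀ x, ((i2 x : ↥(ι.fieldRange ⊔ ι'.fieldRange)) : Ω) = ι' x := fun x => rfl
  let A1 : Algebra F ↥(ι.fieldRange ⊔ ι'.fieldRange) := i1.toRingHom.toAlgebra
  let A2 : Algebra F' ↥(ι.fieldRange ⊔ ι'.fieldRange) := i2.toRingHom.toAlgebra
  have T1 : IsScalarTower K F ↥(ι.fieldRange ⊔ ι'.fieldRange) :=
    IsScalarTower.of_algebraMap_eq fun x => (i1.commutes x).symm
  have T2 : IsScalarTower K F' ↥(ι.fieldRange ⊔ ι'.fieldRange) :=
    IsScalarTower.of_algebraMap_eq fun x => (i2.commutes x).symm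
  have hgen : Subring.closure (Set.range (algebraMap F ↥(ι.fieldRange ⊔ ι'.fieldRange)) ∪
      Set.range (algebraMap F' ↥(ι.fieldRange ⊔ ι'.fieldRange))) = ⊤ := by
    rw [eq_top_iff]
    rintro x -
    set R := Subring.closure (Set.range (algebraMap F ↥(ι.fieldRange ⊔ ι'.fieldRange)) ∪
      Set.range (algebraMap F' ↥(ι.fieldRange ⊔ ι'.fieldRange))) with hR
    let S : Subalgebra K Ω := { R.map ((ι.fieldRange ⊔ ι'.fieldRange).val :
        ↥(ι.fieldRange ⊔ ι'.fieldRange) →+* Ω) with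
      algebraMap_mem' := by
        intro r
        refine ⟨algebraMap F ↥(ι.fieldRange ⊔ ι'.fieldRange) (algebraMap K F r),
          Subring.subset_closure (Or.inl ⟨_, rfl⟩), ?_⟩
        exact ι.commutes r }
    have h1 : ι.fieldRange.toSubalgebra ≤ S := by
      rintro y ⟨z, rfl⟩
      exact ⟨algebraMap F ↥(ι.fieldRange ⊔ ι'.fieldRange) z,
        Subring.subset_closure (Or.inl ⟨_, rfl⟩), rfl⟩
    have h2 : ι'.fieldRange.toSubalgebra ≤ S := by
      rintro y ⟨z, rfl⟩
      exact ⟨algebraMap F' ↥(ι.fieldRange ⊔ ι'.fieldRange) z,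
        Subring.subset_closure (Or.inr ⟨_, rfl⟩), rfl⟩
    have h3 : (ι.fieldRange ⊔ ι'.fieldRange).toSubalgebra ≤ S := by
      rw [IntermediateField.sup_toSubalgebra_of_left]
      exact sup_le h1 h2
    obtain ⟨y, hy, hyx⟩ := h3 x.2
    have h4 : y = x := Subtype.ext hyx
    rw [← h4]
    exact hy
  have hv1 : rs F (ι.fieldRange ⊔ ι'.fieldRange).val = ι := AlgHom.ext fun x => rfl
  have hv2 : rs F' (ι.fieldRange ⊔ ι'.fieldRange).val = ι' := AlgHom.ext fun x => rfl
  have hCm : Cm K Ω F F' ↥(ι.fieldRange ⊔ ι'.fieldRange) (Pb ι ι') := by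
    refine ⟨hgen, fun p => ⟨?_, ?_⟩⟩
    · rintro ⟨σ, rfl⟩
      refine ⟨ac σ (ι.fieldRange ⊔ ι'.fieldRange).val, ?_, ?_⟩
      · rw [rs_ac, hv1]
      · rw [rs_ac, hv2]
    · rintro ⟨j, h1, h2⟩
      obtain ⟨σ, rfl⟩ := emb_tr ↥(ι.fieldRange ⊔ ι'.fieldRange)
        (ι.fieldRange ⊔ ι'.fieldRange).val j
      refine ⟨σ, Prod.ext ?_ ?_⟩
      · rw [← h1, rs_ac, hv1]
      · rw [← h2, rs_ac, hv2]
  refine ⟨↥(ι.fieldRange ⊔ ι'.fieldRange), inferInstance, hNE, inferInstance, A1, A2, T1, T2, ?_,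
    hCm⟩
  have hb := hCm.bij
  rw [← hb.image_eq, Set.ncard_image_of_injOn hb.injOn, Set.ncard_univ, Nat.card_eq_fintype_card]
  exact (AlgHom.card K ↥(ι.fieldRange ⊔ ι'.fieldRange) Ω).symm

end H1.SL
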