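import Pool.Agent.H1.SL.Ora

/-!
# [H1 SL ORB] The orbits of the pairs of embeddings of two cubic fields (140-180 lines)

`F`, `F'` cubic extensions of `K`; there are 3 embeddings of each into `Ω` (`AlgHom.card`, `IsAlgClosure.isAlgClosed K`). `emb_tr` (H57/SL/Dic): any two embeddings are
`ac σ`-conjugate. `Pb ι ι' = {(ac σ ι, ac σ ι')}`. The map `ac σ` on embeddings is injective (`ac_mul`, `ac_one`).

`orb_stab`: let `L = ι.fieldRange`. If `σ` fixes all elements of `L` then `ac σ ι = ι`, so `ac σ ι' = ι'` by hypothesis and `σ` fixes the elements of `ι'.fieldRange`. So `ι'.fieldRange` is in the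
fixed field of `L.fixingSubgroup`, which is `L` (`InfiniteGalois.fixedField_fixingSubgroup`; `IsAlgClosure.isGalois K Ω`, `IntermediateField.mem_fixedField_iff`).

`orb9` (`F`, `F'` not isomorphic over `K`): let `H = {σ | ac σ ι = ι}`. No embedding `κ` of `F'` is fixed by all `σ ∈ H`: otherwise `κ.fieldRange ≤ ι.fieldRange` by `orb_stab`, both of degree 3 over `K`, so
equal (`IntermediateField.eq_of_le_of_finrank_eq`), and `F ≃ ι.fieldRange = κ.fieldRange ≃ F'` (`AlgEquiv.ofInjectiveField`, `IntermediateField.equivOfEq`): contradiction. So `H` is transitive on the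
3 embeddings of `F'`: let `O = {ac τ ι' | τ ∈ H}`; `O` and its complement are stable under `H`; if `O` is not everything then `O` or its complement has exactly one element, which is a fixed
point: contradiction. Now let `(a, b)` be any pair: `a = ac σ ι` (`emb_tr`), `ac σ⁻¹ b = ac τ ι'` with `τ ∈ H`; then `(a, b) = (ac (σ τ) ι, ac (σ τ) ι')`.

`orb6` (`e : F ≃ F'`, `F` not Galois, `ι₁ ≠ ι₂`): `Pb ι₁ (ι₂ ∘ e⁻¹) ⊆ T6 e` because `ac σ ι₂ ≠ ac σ ι₁`. Conversely let `(a, b)` with `b ∘ e ≠ a`. `a = ac σ ι₁`; `c := ac σ⁻¹ (b ∘ e) ≠ ι₁`. It is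
enough to find `τ` with `ac τ ι₁ = ι₁`, `ac τ ι₂ = c`. If `c = ι₂` take `τ = 1`. Otherwise `ι₁, ι₂, c` are the three embeddings. If some `τ` with `ac τ ι₁ = ι₁` has `ac τ ι₂ ≠ ι₂` then
`ac τ ι₂ = c` (it is not `ι₁ = ac τ ι₁`). Otherwise all these `τ` fix `ι₂` and so `c` (the remaining embedding), and by `orb_stab` all three embeddings have their image in
`L = ι₁.fieldRange`, equal to `L` by the degrees; so there are three automorphisms of `F` over `K` (`ι₁⁻¹ ∘ ι`), and `F / K` is Galois (`IsGalois.of_card_aut_eq_finrank`): contradiction.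

`orb_c9`: `3 * 3`. `orb_c6`: the complement of `T6 e` are the pairs `(b ∘ e, b)`: 3 pairs; `9 - 3 = 6`.

`cm9`, `cm6`: `ora` for one pair (`IsAlgClosed.lift` gives an embedding; for `cm6` two different embeddings `ι₁ ≠ ι₂` of `F`, and the pair `(ι₁, ι₂ ∘ e⁻¹)`), `orb9`, `orb6` and the numbers.
-/

set_option autoImplicit false

open scoped NumberField Pointwise Classical
open IsDedekindDomain H63.MA NumberField H57.LI H57.SL H1.LS4

noncomputable section

namespace H1.SL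

variable {K Ω F F' : Type} [Field K] [NumberField K] [Field Ω] [Algebra K Ω]
    [IsAlgClosure K Ω] [Field F] [NumberField F] [Field F'] [NumberField F'] [Algebra K F]
    [Algebra K F']

/-- a group without fixed points on three points is transitive -/
private theorem act3 {G X : Type} [Group G] (a : G → X → X) (a1 : ∀ x, a 1 x = x)
    (am : ∀ g h x, a (g * h) x = a g (a h x)) (H : Subgroup G) (hX : Nat.card X = 3)
    (hno : ∀ x, ∃ τ ∈ H, a τ x ≠ x) (x y : X) : ∃ τ ∈ H, a τ x = y := by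
  by_contra hcon
  push Not at hcon
  have hinv : ∀ g x, a g⁻¹ (a g x) = x := by
    intro g x
    rw [← am, inv_mul_cancel, a1]
  obtain ⟨τ, hτ, h1⟩ := hno x
  obtain ⟨τ', hτ', h2⟩ := hno y
  have hxy : x ≠ y := by
    have := hcon 1 H.one_mem
    rwa [a1] at this
  have h3 : a τ x ≠ y := hcon τ hτ
  have h4 : x ≠ a τ' y := by
    intro h
    apply hcon τ'⁻¹ (H.inv_mem hτ')
    rw [h, hinv]
  have h5 : a τ x ≠ a τ' y := by
    intro h
    apply hcon (τ'⁻¹ * τ) (H.mul_mem (H.inv_mem hτ') hτ)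
    rw [am, h, hinv]
  have hf : Finite X := Nat.finite_of_card_ne_zero (by rw [hX]; norm_num)
  have h6 : ({x, a τ x, y, a τ' y} : Finset X).card = 4 := by
    rw [Finset.card_insert_of_notMem, Finset.card_insert_of_notMem, Finset.card_insert_of_notMem,
      Finset.card_singleton]
    · rw [Finset.mem_singleton]
      exact h2.symm
    · rw [Finset.mem_insert, Finset.mem_singleton, not_or]
      exact ⟨h3, h5⟩
    · rw [Finset.mem_insert, Finset.mem_insert, Finset.mem_singleton, not_or, not_or]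
      exact ⟨h1.symm, hxy, h4⟩
  have hF := Fintype.ofFinite X
  have h7 := Finset.card_le_univ ({x, a τ x, y, a τ' y} : Finset X)
  rw [h6, ← Nat.card_eq_fintype_card, hX] at h7
  omega

omit [NumberField F] in
private theorem emb3 (Ω : Type) [Field Ω] [Algebra K Ω] [IsAlgClosure K Ω] (h3 : Module.finrank K F = 3) :
    Nat.card (F →ₐ[K] Ω) = 3 := by
  have : IsAlgClosed Ω := IsAlgClosure.isAlgClosed K
  have : FiniteDimensional K F := Module.finite_of_finrank_pos (by rw [h3]; norm_num)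
  rw [Nat.card_eq_fintype_card, AlgHom.card, h3]

omit [NumberField K] [IsAlgClosure K Ω] [NumberField F] in
private theorem rk (ι : F →ₐ[K] Ω) : Module.finrank K ι.fieldRange = Module.finrank K F :=
  (AlgEquiv.ofInjectiveField ι).toLinearEquiv.finrank_eq.symm

omit [NumberField K] [IsAlgClosure K Ω] [NumberField F] [NumberField F'] in
private theorem rg_eq (h3 : Module.finrank K F = 3) (h3' : Module.finrank K F' = 3) (ι : F →ₐ[K] Ω)
    (ι' : F' →ₐ[K] Ω) (h : ι'.fieldRange ≤ ι.fieldRange) : ι'.fieldRange = ι.fieldRange := by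
  have h1 : Module.finrank K ι.fieldRange = 3 := (rk ι).trans h3
  have : FiniteDimensional K ι.fieldRange := Module.finite_of_finrank_pos (by rw [h1]; norm_num)
  exact IntermediateField.eq_of_le_of_finrank_eq h (by rw [rk, rk, h3, h3'])

/-- the stabiliser of an embedding -/
private def stb (ι : F →ₐ[K] Ω) : Subgroup Gal(Ω/K) where
  carrier := {σ | ac σ ι = ι}
  one_mem' := ac_one ι
  mul_mem' := by
    intro σ τ hσ hτ
    show ac (σ * τ) ι = ι
    have h1 : ac τ ι = ι := hτ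
    have h2 : ac σ ι = ι := hσ
    rw [ac_mul, h1, h2]
  inv_mem' := by
    intro σ hσ
    show ac σ⁻¹ ι = ι
    have h2 : ac σ ι = ι := hσ
    calc ac σ⁻¹ ι = ac σ⁻¹ (ac σ ι) := by rw [h2]
      _ = ι := by rw [← ac_mul, inv_mul_cancel, ac_one]

omit [NumberField F'] in
/-- if an embedding of `F` has conjugates in only one field then `F / K` is Galois -/
private theorem gal_of (ι : F →ₐ[K] Ω) (h : ∀ κ : F →ₐ[K] Ω, κ.fieldRange ≤ ι.fieldRange) : IsGalois K F := by
  have : IsAlgClosed Ω := IsAlgClosure.isAlgClosed K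
  have : Normal K Ω := IsAlgClosure.normal K Ω
  let e : F ≃ₐ[K] ι.fieldRange := AlgEquiv.ofInjectiveField ι
  have h1 : Normal K ι.fieldRange := by
    rw [IntermediateField.normal_iff_forall_fieldRange_le]
    intro σ
    refine le_trans ?_ (h (σ.comp (e : F →ₐ[K] ι.fieldRange)))
    rintro _ ⟨y, rfl⟩
    obtain ⟨x, rfl⟩ := e.surjective y
    exact ⟨x, rfl⟩
  have h2 : Normal K F := Normal.of_algEquiv e.symm
  exact isGalois_iff.2 ⟨inferInstance, h2⟩

theorem orb_stab (ι : F →ₐ[K] Ω) (ι' : F' →ₐ[K] Ω)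
    (h : ∀ σ : Gal(Ω/K), ac σ ι = ι → ac σ ι' = ι') : ι'.fieldRange ≤ ι.fieldRange := by
  have : IsGalois K Ω := IsAlgClosure.isGalois K Ω
  rintro _ ⟨x, rfl⟩
  rw [← InfiniteGalois.fixedField_fixingSubgroup ι.fieldRange, IntermediateField.mem_fixedField_iff]
  intro σ hσ
  rw [IntermediateField.mem_fixingSubgroup_iff] at hσ
  have h1 : ac σ ι = ι := AlgHom.ext fun y => hσ _ ⟨y, rfl⟩
  exact DFunLike.congr_fun (h σ h1) x

theorem orb9 (h3 : Module.finrank K F = 3) (h3' : Module.finrank K F' = 3)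
    (hne : IsEmpty (F ≃ₐ[K] F')) (ι : F →ₐ[K] Ω) (ι' : F' →ₐ[K] Ω) : Pb ι ι' = Set.univ := by
  have hno : ∀ κ : F' →ₐ[K] Ω, ∃ τ ∈ stb ι, ac τ κ ≠ κ := by
    intro κ
    by_contra hcon
    push Not at hcon
    have h1 : κ.fieldRange ≤ ι.fieldRange := orb_stab ι κ fun σ hσ => hcon σ hσ
    have h2 := rg_eq h3 h3' ι κ h1
    exact hne.false ((AlgEquiv.ofInjectiveField ι).trans
      ((IntermediateField.equivOfEq h2).symm.trans (AlgEquiv.ofInjectiveField κ).symm))
  rw [Set.eq_univ_iff_forall]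
  rintro ⟨a, b⟩
  obtain ⟨σ, hσ⟩ := emb_tr F ι a
  obtain ⟨τ, hτ, h4⟩ := act3 (fun (g : Gal(Ω/K)) (x : F' →ₐ[K] Ω) => ac g x) ac_one ac_mul (stb ι)
    (emb3 Ω h3') hno ι' (ac σ⁻¹ b)
  have h5 : ac τ ι = ι := hτ
  have h6 : ac τ ι' = ac σ⁻¹ b := h4
  refine ⟨σ * τ, Prod.ext ?_ ?_⟩
  · show a = ac (σ * τ) ι
    rw [ac_mul, h5, hσ]
  · show b = ac (σ * τ) ι'
    rw [ac_mul, h6, ← ac_mul, mul_inv_cancel, ac_one]

theorem orb6 (h3 : Module.finrank K F = 3) (hng : ¬ IsGalois K F) (e : F ≃ₐ[K] F')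
    (ι₁ ι₂ : F →ₐ[K] Ω) (h : ι₁ ≠ ι₂) :
    Pb ι₁ (ι₂.comp (e.symm : F' →ₐ[K] F)) = T6 e := by
  have hX := emb3 (F := F) Ω h3
  have hinj : ∀ (τ : Gal(Ω/K)) (x y : F →ₐ[K] Ω), ac τ x = ac τ y → x = y := by
    intro τ x y hxy
    calc x = ac τ⁻¹ (ac τ x) := by rw [← ac_mul, inv_mul_cancel, ac_one]
      _ = y := by rw [hxy, ← ac_mul, inv_mul_cancel, ac_one]
  have hfin : Finite (F →ₐ[K] Ω) := Nat.finite_of_card_ne_zero (by rw [hX]; norm_num)
  have hF := Fintype.ofFinite (F →ₐ[K] Ω)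
  have hX' : Fintype.card (F →ₐ[K] Ω) = 3 := by rw [← Nat.card_eq_fintype_card, hX]
  -- three different embeddings are all embeddings
  have hall : ∀ c x : F →ₐ[K] Ω, c ≠ ι₁ → c ≠ ι₂ → x = ι₁ ∨ x = ι₂ ∨ x = c := by
    intro c x hc1 hc2
    by_contra hcon
    push Not at hcon
    have h6 : ({x, c, ι₁, ι₂} : Finset (F →ₐ[K] Ω)).card = 4 := by
      rw [Finset.card_insert_of_notMem, Finset.card_insert_of_notMem, Finset.card_insert_of_notMem,
        Finset.card_singleton]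
      · rw [Finset.mem_singleton]
        exact h
      · rw [Finset.mem_insert, Finset.mem_singleton, not_or]
        exact ⟨hc1, hc2⟩
      · rw [Finset.mem_insert, Finset.mem_insert, Finset.mem_singleton, not_or, not_or]
        exact ⟨hcon.2.2, hcon.1, hcon.2.1⟩
    have h7 := Finset.card_le_univ ({x, c, ι₁, ι₂} : Finset (F →ₐ[K] Ω))
    rw [h6, hX'] at h7
    omega
  have hmv : ∃ τ : Gal(Ω/K), ac τ ι₁ = ι₁ ∧ ac τ ι₂ ≠ ι₂ := by
    by_contra hcon
    push Not at hcon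
    apply hng
    apply gal_of ι₁
    intro κ
    refine orb_stab ι₁ κ fun σ hσ => ?_
    by_cases k1 : κ = ι₁
    · rw [k1, hσ]
    by_cases k2 : κ = ι₂
    · rw [k2, hcon σ hσ]
    rcases hall κ (ac σ κ) k1 k2 with h4 | h4 | h4
    · exact absurd (hinj σ _ _ (h4.trans hσ.symm)) k1
    · exact absurd (hinj σ _ _ (h4.trans (hcon σ hσ).symm)) k2
    · exact h4
  ext ⟨a, b⟩
  constructor
  · rintro ⟨σ, hσ⟩
    have h4 : a = ac σ ι₁ := congrArg Prod.fst hσ
    have h5 : b = ac σ (ι₂.comp (e.symm : F' →ₐ[K] F)) := congrArg Prod.snd hσ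
    show b.comp (e : F →ₐ[K] F') ≠ a
    rw [h4, h5]
    intro h6
    apply h
    apply hinj σ
    rw [← h6]
    refine AlgHom.ext fun x => ?_
    show σ (ι₂ (e.symm (e x))) = σ (ι₂ x)
    rw [e.symm_apply_apply]
  · intro hab
    have hab' : b.comp (e : F →ₐ[K] F') ≠ a := hab
    obtain ⟨σ, hσ⟩ := emb_tr F ι₁ a
    have hc : ac σ⁻¹ (b.comp (e : F →ₐ[K] F')) ≠ ι₁ := by
      intro h4
      apply hab'
      rw [hσ, ← h4, ← ac_mul, mul_inv_cancel, ac_one]
    obtain ⟨τ, h5, h6⟩ : ∃ τ : Gal(Ω/K), ac τ ι₁ = ι₁ ∧ ac τ ι₂ = ac σ⁻¹ (b.comp (e : F →ₐ[K] F')) := by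
      by_cases h2 : ac σ⁻¹ (b.comp (e : F →ₐ[K] F')) = ι₂
      · exact ⟨1, ac_one _, by rw [ac_one, h2]⟩
      · obtain ⟨τ, h5, h6⟩ := hmv
        refine ⟨τ, h5, ?_⟩
        rcases hall _ (ac τ ι₂) hc h2 with h7 | h7 | h7
        · exact absurd (hinj τ _ _ (h7.trans h5.symm)).symm h
        · exact absurd h7 h6
        · exact h7
    refine ⟨σ * τ, Prod.ext ?_ ?_⟩
    · show a = ac (σ * τ) ι₁
      rw [ac_mul, h5, hσ]
    · show b = ac (σ * τ) (ι₂.comp (e.symm : F' →ₐ[K] F))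
      have h7 : ac τ (ι₂.comp (e.symm : F' →ₐ[K] F)) = (ac τ ι₂).comp (e.symm : F' →ₐ[K] F) := rfl
      rw [ac_mul, h7, h6]
      refine AlgHom.ext fun x => ?_
      show b x = σ (σ⁻¹ (b (e (e.symm x))))
      rw [e.apply_symm_apply, ← AlgEquiv.mul_apply, mul_inv_cancel, AlgEquiv.one_apply]

theorem orb_c9 (h3 : Module.finrank K F = 3) (h3' : Module.finrank K F' = 3) :
    (Set.univ : Set ((F →ₐ[K] Ω) × (F' →ₐ[K] Ω))).ncard = 9 := by
  rw [Set.ncard_univ, Nat.card_prod, emb3 Ω h3, emb3 Ω h3']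

theorem orb_c6 (h3 : Module.finrank K F = 3) (e : F ≃ₐ[K] F') :
    (T6 (Ω := Ω) e).ncard = 6 := by
  have h3' : Module.finrank K F' = 3 := by rw [← e.toLinearEquiv.finrank_eq, h3]
  have hX := emb3 (F := F) Ω h3
  have hX' := emb3 (F := F') Ω h3'
  have hfin : Finite (F →ₐ[K] Ω) := Nat.finite_of_card_ne_zero (by rw [hX]; norm_num)
  have hfin' : Finite (F' →ₐ[K] Ω) := Nat.finite_of_card_ne_zero (by rw [hX']; norm_num)
  have h1 := Set.ncard_add_ncard_compl (T6 (Ω := Ω) e)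
  rw [Nat.card_prod, hX, hX'] at h1
  have h2 : ((T6 (Ω := Ω) e)ᶜ).ncard = 3 := by
    have h4 : (T6 (Ω := Ω) e)ᶜ = (fun b : F' →ₐ[K] Ω => (b.comp (e : F →ₐ[K] F'), b)) '' Set.univ := by
      ext ⟨a, b⟩
      constructor
      · intro h5
        have h6 : b.comp (e : F →ₐ[K] F') = a := not_not.1 h5
        exact ⟨b, trivial, Prod.ext h6 rfl⟩
      · rintro ⟨b', -, h5⟩
        have h6 : b'.comp (e : F →ₐ[K] F') = a := congrArg Prod.fst h5
        have h7 : b' = b := congrArg Prod.snd h5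
        rw [h7] at h6
        exact not_not.2 h6
    rw [h4, Set.ncard_image_of_injective, Set.ncard_univ, hX']
    intro b b' hb
    exact congrArg Prod.snd hb
  omega

theorem cm9 (Ω : Type) [Field Ω] [Algebra K Ω] [IsAlgClosure K Ω] (h3 : Module.finrank K F = 3)
    (h3' : Module.finrank K F' = 3) (hne : IsEmpty (F ≃ₐ[K] F')) :
    ∃ (E : Type) (_ : Field E) (_ : NumberField E) (_ : Algebra K E) (_ : Algebra F E)
      (_ : Algebra F' E) (_ : IsScalarTower K F E) (_ : IsScalarTower K F' E),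
      Module.finrank K E = 9 ∧ Cm K Ω F F' E Set.univ := by
  have : IsAlgClosed Ω := IsAlgClosure.isAlgClosed K
  have : FiniteDimensional K F := Module.finite_of_finrank_pos (by rw [h3]; norm_num)
  have : FiniteDimensional K F' := Module.finite_of_finrank_pos (by rw [h3']; norm_num)
  let ι : F →ₐ[K] Ω := IsAlgClosed.lift
  let ι' : F' →ₐ[K] Ω := IsAlgClosed.lift
  have h4 := orb9 h3 h3' hne ι ι'
  have h5 := ora ι ι'
  rw [h4, orb_c9 h3 h3'] at h5
  exact h5

theorem cm6 (Ω : Type) [Field Ω] [Algebra K Ω] [IsAlgClosure K Ω] (h3 : Module.finrank K F = 3)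
    (hng : ¬ IsGalois K F) (e : F ≃ₐ[K] F') :
    ∃ (E : Type) (_ : Field E) (_ : NumberField E) (_ : Algebra K E) (_ : Algebra F E)
      (_ : Algebra F' E) (_ : IsScalarTower K F E) (_ : IsScalarTower K F' E),
      Module.finrank K E = 6 ∧ Cm K Ω F F' E (T6 e) := by
  have hX := emb3 (F := F) Ω h3
  have hfin : Finite (F →ₐ[K] Ω) := Nat.finite_of_card_ne_zero (by rw [hX]; norm_num)
  have hnt : Nontrivial (F →ₐ[K] Ω) := Finite.one_lt_card_iff_nontrivial.1 (by rw [hX]; norm_num)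
  obtain ⟨ι₁, ι₂, h⟩ := hnt.exists_pair_ne
  have h4 := orb6 h3 hng e ι₁ ι₂ h
  have h5 := ora ι₁ (ι₂.comp (e.symm : F' →ₐ[K] F))
  rw [h4, orb_c6 h3 e] at h5
  exact h5

end H1.SL
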